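import Pool.Agent.Helper103.FlowDefs

namespace Pool.Agent.Helper103.Flow

open Finset

variable {V : Type} [Fintype V] [DecidableEq V]

/-- `σ` is constant on the edge `e`. -/
def Mono {n : ℕ} (σ : V → Fin n) (e : Sym2 V) : Prop := (e.map σ).IsDiag

instance {n : ℕ} (σ : V → Fin n) (e : Sym2 V) : Decidable (Mono σ e) := by
  unfold Mono; infer_instance

omit [Fintype V] [DecidableEq V] in
theorem mono_mk {n : ℕ} (σ : V → Fin n) (a b : V) : Mono σ s(a, b) ↔ σ a = σ b := by
  unfold Mono; simp

/-- colourings constant on the edges of `A` correspond to functions on components -/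
theorem card_mono (n : ℕ) (A : Finset (Sym2 V)) :
    Fintype.card {σ : V → Fin n // ∀ e ∈ A, Mono σ e} = n ^ numComps A := by
  classical
  set H := SimpleGraph.fromEdgeSet (A : Set (Sym2 V)) with hH
  have key : ∀ σ : V → Fin n, (∀ e ∈ A, Mono σ e) ↔ ∀ u v, H.Adj u v → σ u = σ v := by
    intro σ
    constructor
    · intro h u v huv
      rw [hH, SimpleGraph.fromEdgeSet_adj] at huv
      exact (mono_mk σ u v).1 (h _ (by exact_mod_cast huv.1))
    · intro h e he
      induction e using Sym2.ind with
      | _ x y =>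
        rw [mono_mk]
        by_cases hxy : x = y
        · rw [hxy]
        · exact h x y (by rw [hH, SimpleGraph.fromEdgeSet_adj]; exact ⟨by exact_mod_cast he, hxy⟩)
  have hwalk : ∀ (σ : V → Fin n), (∀ u v, H.Adj u v → σ u = σ v) →
      ∀ u v (p : H.Walk u v), σ u = σ v := by
    intro σ h u v p
    induction p with
    | nil => rfl
    | cons hadj _ ih => rw [h _ _ hadj, ih]
  have e : {σ : V → Fin n // ∀ e ∈ A, Mono σ e} ≃ (H.ConnectedComponent → Fin n) :=
    { toFun := fun σ c => c.lift σ.1 (fun u v p _ => hwalk σ.1 ((key σ.1).1 σ.2) u v p)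
      invFun := fun f => ⟨fun v => f (H.connectedComponentMk v), by
        rw [key]
        intro u v huv
        have : H.connectedComponentMk u = H.connectedComponentMk v :=
          SimpleGraph.ConnectedComponent.sound huv.reachable
        simp only [this]⟩
      left_inv := by
        intro σ
        ext v
        simp
      right_inv := by
        intro f
        funext c
        induction c using SimpleGraph.ConnectedComponent.ind with
        | _ v => simp }
  rw [← Nat.card_eq_fintype_card, Nat.card_congr e, Nat.card_fun, Nat.card_fin]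
  rfl

/-- the Potts identity -/
theorem potts (n : ℕ) (E : Finset (Sym2 V)) :
    ∑ σ : V → Fin n, ∏ e ∈ E, ((if Mono σ e then (n : ℤ) else 0) - 1)
      = ∑ A ∈ E.powerset, (-1 : ℤ) ^ (E.card - A.card) * (n : ℤ) ^ (A.card + numComps A) := by
  classical
  have h1 : ∀ σ : V → Fin n, ∏ e ∈ E, ((if Mono σ e then (n : ℤ) else 0) - 1)
      = ∑ A ∈ E.powerset, (-1 : ℤ) ^ (E.card - A.card) *
          ((n : ℤ) ^ A.card * (if ∀ e ∈ A, Mono σ e then 1 else 0)) := by
    intro σ
    have : ∀ e ∈ E, ((if Mono σ e then (n : ℤ) else 0) - 1)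
        = ((if Mono σ e then (n : ℤ) else 0) + (-1)) := fun e _ => by ring
    rw [Finset.prod_congr rfl this, Finset.prod_add]
    refine Finset.sum_congr rfl fun A hA => ?_
    rw [Finset.mem_powerset] at hA
    rw [Finset.prod_const, Finset.card_sdiff_of_subset hA, mul_comm]
    congr 1
    by_cases h : ∀ e ∈ A, Mono σ e
    · rw [if_pos h, mul_one, ← Finset.prod_const]
      exact Finset.prod_congr rfl fun e he => by rw [if_pos (h e he)]
    · rw [if_neg h, mul_zero]
      push Not at h
      obtain ⟨e, he, hne⟩ := h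
      exact Finset.prod_eq_zero he (by rw [if_neg hne])
  simp_rw [h1]
  rw [Finset.sum_comm]
  refine Finset.sum_congr rfl fun A hA => ?_
  rw [← Finset.mul_sum, ← Finset.mul_sum]
  congr 1
  rw [pow_add]
  congr 1
  rw [Finset.sum_boole]
  have := card_mono n A
  rw [Fintype.card_subtype] at this
  rw [this]
  push_cast
  rfl

/-- the auxiliary polynomial `X^{|V|} F(G,X)` -/
noncomputable def pottsPoly (E : Finset (Sym2 V)) : Polynomial ℤ :=
  ∑ A ∈ E.powerset, (-1) ^ (E.card - A.card) * Polynomial.X ^ (A.card + numComps A)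

theorem pottsPoly_eval (n : ℕ) (E : Finset (Sym2 V)) :
    (pottsPoly E).eval (n : ℤ)
      = ∑ σ : V → Fin n, ∏ e ∈ E, ((if Mono σ e then (n : ℤ) else 0) - 1) := by
  rw [potts, pottsPoly, Polynomial.eval_finsetSum]
  refine Finset.sum_congr rfl fun A _ => ?_
  simp

theorem flowPoly_eq (G : SimpleGraph V) [DecidableRel G.Adj] (q : ℝ) (hq : q ≠ 0) :
    q ^ (Fintype.card V) * flowPoly G q = Polynomial.aeval q (pottsPoly G.edgeFinset) := by
  rw [flowPoly, pottsPoly, map_sum, Finset.mul_sum]
  refine Finset.sum_congr rfl fun A _ => ?_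
  simp only [map_mul, map_pow, map_neg, map_one, Polynomial.aeval_X]
  rw [mul_left_comm]
  congr 1
  rw [← zpow_natCast q (Fintype.card V), ← zpow_add₀ hq, ← zpow_natCast q (A.card + numComps A)]
  congr 1
  push_cast
  ring

end Pool.Agent.Helper103.Flow
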