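import Mathlib

namespace Pool.Agent.Helper103.Flow

open Finset

/-- sum over colourings, by equality pattern -/
def psum {R : Type} [CommRing R] (q : R) (H : List ℕ → R) : ℕ → ℕ → List ℕ → R
  | 0, _, l => H l
  | m + 1, k, l => ((List.range k).map fun c => psum q H m k (l ++ [c])).sum
      + (q - (k : R)) * psum q H m (k + 1) (l ++ [k])

/-- sum over colourings -/
def csum {R : Type} [CommRing R] (n : ℕ) (H : List ℕ → R) : ℕ → List ℕ → R
  | 0, l => H l
  | m + 1, l => ∑ c ∈ range n, csum n H m (l ++ [c])

theorem csum_fun {R : Type} [CommRing R] (n : ℕ) (H : List ℕ → R) (m : ℕ) (l : List ℕ) :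
    ∑ σ : Fin m → Fin n, H (l ++ (List.ofFn σ).map Fin.val) = csum n H m l := by
  induction m generalizing l with
  | zero => simp [csum]
  | succ m ih =>
    rw [csum, ← Fin.sum_univ_eq_sum_range (fun c => csum n H m (l ++ [c])) n]
    rw [← (Fin.consEquiv (fun _ => Fin n)).sum_comp, Fintype.sum_prod_type]
    refine Finset.sum_congr rfl fun a _ => ?_
    rw [← ih]
    refine Finset.sum_congr rfl fun σ _ => ?_
    congr 1
    simp [Fin.consEquiv, List.ofFn_succ]

theorem csum_add {R : Type} [CommRing R] (n : ℕ) (H : List ℕ → R) (m m' : ℕ) (l : List ℕ) :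
    csum n H (m + m') l = csum n (fun l => csum n H m' l) m l := by
  induction m generalizing l with
  | zero => simp [csum]
  | succ m ih =>
    rw [Nat.succ_add, csum, csum]
    exact Finset.sum_congr rfl fun c _ => ih _

theorem csum_congr {R : Type} [CommRing R] (n : ℕ) (H H' : List ℕ → R) (m : ℕ) (l : List ℕ)
    (hl : ∀ x ∈ l, x < n)
    (h : ∀ l', l'.length = l.length + m → (∀ x ∈ l', x < n) → H l' = H' l') :
    csum n H m l = csum n H' m l := by
  induction m generalizing l with
  | zero => exact h l rfl hl
  | succ m ih =>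
    rw [csum, csum]
    refine Finset.sum_congr rfl fun c hc => ih _ ?_ ?_
    · intro x hx
      rw [List.mem_append, List.mem_singleton] at hx
      rcases hx with hx | rfl
      · exact hl x hx
      · exact Finset.mem_range.1 hc
    · intro l' h1 h2
      refine h l' ?_ h2
      rw [h1]; simp; ring

theorem csum_perm {R : Type} [CommRing R] (n : ℕ) (H : List ℕ → R)
    (hH : ∀ (π : Equiv.Perm ℕ) (l : List ℕ), H (l.map π) = H l)
    (π : Equiv.Perm ℕ) (hπ : ∀ c, π c < n ↔ c < n) (m : ℕ) (l : List ℕ) :
    csum n H m (l.map π) = csum n H m l := by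
  induction m generalizing l with
  | zero => exact hH π l
  | succ m ih =>
    rw [csum, csum]
    refine (Finset.sum_bij (fun c _ => π c) ?_ ?_ ?_ ?_).symm
    · intro a ha
      rw [Finset.mem_range] at ha ⊢
      exact (hπ a).2 ha
    · intro a _ b _ hab
      exact π.injective hab
    · intro b hb
      refine ⟨π.symm b, ?_, by simp⟩
      rw [Finset.mem_range] at hb ⊢
      rw [← hπ]; simpa using hb
    · intro a _
      rw [← ih]
      simp

theorem csum_eq_psum {R : Type} [CommRing R] (n : ℕ) (H : List ℕ → R)
    (hH : ∀ (π : Equiv.Perm ℕ) (l : List ℕ), H (l.map π) = H l) (m k : ℕ) (l : List ℕ)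
    (hk : k ≤ n) (hl : ∀ x ∈ l, x < k) :
    csum n H m l = psum (n : R) H m k l := by
  induction m generalizing k l with
  | zero => rfl
  | succ m ih =>
    rw [csum, psum]
    have hsplit : ∑ c ∈ range n, csum n H m (l ++ [c])
        = ∑ c ∈ range k, csum n H m (l ++ [c]) + ∑ c ∈ Finset.Ico k n, csum n H m (l ++ [c]) := by
      rw [Finset.range_eq_Ico, Finset.range_eq_Ico, Finset.sum_Ico_consecutive _ (Nat.zero_le k) hk]
    rw [hsplit]
    congr 1
    · rw [← List.sum_toFinset _ List.nodup_range, List.toFinset_range]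
      refine Finset.sum_congr rfl fun c hc => ih k _ hk ?_
      intro x hx
      rw [List.mem_append, List.mem_singleton] at hx
      rcases hx with hx | rfl
      · exact hl x hx
      · exact Finset.mem_range.1 hc
    · rcases Nat.eq_or_lt_of_le hk with h | h
      · subst h; simp
      · have hconst : ∀ c ∈ Finset.Ico k n, csum n H m (l ++ [c]) = csum n H m (l ++ [k]) := by
          intro c hc
          rw [Finset.mem_Ico] at hc
          have hmap : (l ++ [k]).map (Equiv.swap k c) = l ++ [c] := by
            rw [List.map_append]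
            congr 1
            · conv_rhs => rw [← List.map_id l]
              refine List.map_congr_left fun x hx => ?_
              have := hl x hx
              rw [Equiv.swap_apply_of_ne_of_ne] <;> simp <;> omega
            · simp
          rw [← hmap]
          refine csum_perm n H hH _ ?_ m _
          intro x
          rcases eq_or_ne x k with rfl | hxk
          · rw [Equiv.swap_apply_left]; omega
          · rcases eq_or_ne x c with rfl | hxc
            · rw [Equiv.swap_apply_right]; omega
            · rw [Equiv.swap_apply_of_ne_of_ne hxk hxc]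
        rw [Finset.sum_congr rfl hconst, Finset.sum_const, Nat.card_Ico, nsmul_eq_mul,
          Nat.cast_sub hk]
        congr 1
        refine ih (k + 1) _ h ?_
        intro x hx
        rw [List.mem_append, List.mem_singleton] at hx
        rcases hx with hx | rfl
        · have := hl x hx; omega
        · omega

theorem psum_map {R S : Type} [CommRing R] [CommRing S] (φ : R →+* S) (q : R)
    (H : List ℕ → R) (m k : ℕ) (l : List ℕ) :
    φ (psum q H m k l) = psum (φ q) (fun l => φ (H l)) m k l := by
  induction m generalizing k l with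
  | zero => rfl
  | succ m ih =>
    rw [psum, psum, map_add, map_mul, map_sub, map_natCast, ih, map_list_sum, List.map_map]
    congr 2
    refine List.map_congr_left fun c _ => ?_
    simp [ih]

/-- edge weight -/
def ew {R : Type} [CommRing R] (q : R) (x y : ℕ) : R := if x = y then q - 1 else -1

/-- gadget weight -/
def gw {R : Type} [CommRing R] (q : R) (x y z : ℕ) : R :=
  if x = y ∧ y = z then
    (q - 1) ^ 5 - 2 * (q - 1) ^ 4 + 3 * (q - 1) ^ 3 - 2 * (q - 1) ^ 2 + (q - 1)
  else if x = y ∨ y = z ∨ x = z then (q - 1) ^ 3 - 2 * (q - 1) ^ 2 + 4 * (q - 1) - 2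
  else 3 * (q - 1) - 6

theorem ew_map {R S : Type} [CommRing R] [CommRing S] (φ : R →+* S) (q : R) (x y : ℕ) :
    φ (ew q x y) = ew (φ q) x y := by
  unfold ew; split_ifs <;> simp

theorem gw_map {R S : Type} [CommRing R] [CommRing S] (φ : R →+* S) (q : R) (x y z : ℕ) :
    φ (gw q x y z) = gw (φ q) x y z := by
  unfold gw; split_ifs <;> simp [map_ofNat]

/-- sums of a function which is constant off three points -/
theorem sum_const_off (n : ℕ) (f : ℕ → ℤ) (c : ℤ) (T : Finset ℕ) (hT : T ⊆ range n)
    (h : ∀ u ∈ range n, u ∉ T → f u = c) :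
    ∑ u ∈ range n, f u = n * c + ∑ u ∈ T, (f u - c) := by
  have h1 : ∑ u ∈ range n, f u = ∑ u ∈ range n, (c + (f u - c)) :=
    Finset.sum_congr rfl fun u _ => by ring
  rw [h1, Finset.sum_add_distrib]
  congr 1
  · simp
  · symm
    refine Finset.sum_subset hT fun u hu hu' => ?_
    rw [h u hu hu', sub_self]

theorem sum_pair_weight (n : ℕ) (f : ℕ → ℤ) :
    ∑ u ∈ range n, ∑ v ∈ range n, f u * f v * ew (n : ℤ) u v
      = n * ∑ u ∈ range n, f u ^ 2 - (∑ u ∈ range n, f u) ^ 2 := by
  have h1 : ∀ u ∈ range n, ∑ v ∈ range n, f u * f v * ew (n : ℤ) u v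
      = n * f u ^ 2 - f u * ∑ v ∈ range n, f v := by
    intro u hu
    have : ∀ v ∈ range n, f u * f v * ew (n : ℤ) u v
        = (if u = v then n * (f u * f v) else 0) - f u * f v := by
      intro v _
      unfold ew
      split_ifs <;> ring
    rw [Finset.sum_congr rfl this, Finset.sum_sub_distrib, Finset.sum_ite_eq, if_pos hu,
      Finset.mul_sum]
    ring
  rw [Finset.sum_congr rfl h1, Finset.sum_sub_distrib, ← Finset.mul_sum, ← Finset.sum_mul, sq]

theorem gadget (n x y z : ℕ) (hx : x < n) (hy : y < n) (hz : z < n) :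
    ∑ u ∈ range n, ∑ v ∈ range n,
      (ew (n : ℤ) x u * ew (n : ℤ) y u * ew (n : ℤ) z u) *
      (ew (n : ℤ) x v * ew (n : ℤ) y v * ew (n : ℤ) z v) * ew (n : ℤ) u v
      = (n : ℤ) ^ 2 * gw (n : ℤ) x y z := by
  rw [sum_pair_weight n (fun u => ew (n : ℤ) x u * ew (n : ℤ) y u * ew (n : ℤ) z u)]
  have hT : ({x, y, z} : Finset ℕ) ⊆ range n := by
    intro a ha
    simp only [Finset.mem_insert, Finset.mem_singleton] at ha
    rw [Finset.mem_range]
    rcases ha with rfl | rfl | rfl <;> assumption
  rw [sum_const_off n _ 1 {x, y, z} hT, sum_const_off n _ (-1) {x, y, z} hT]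
  · by_cases h1 : x = y
    · subst h1
      by_cases h2 : x = z
      · subst h2
        simp [ew, gw]
        ring
      · simp [ew, gw, h2, Ne.symm h2]
        ring
    · by_cases h2 : y = z
      · subst h2
        simp [ew, gw, h1, Ne.symm h1]
        ring
      · by_cases h3 : x = z
        · subst h3
          simp [ew, gw, h1, h2]
          ring
        · simp [ew, gw, h1, h2, h3, Ne.symm h1, Ne.symm h2, Ne.symm h3]
          ring
  · intro u _ hu
    simp only [Finset.mem_insert, Finset.mem_singleton, not_or] at hu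
    simp [ew, Ne.symm hu.1, Ne.symm hu.2.1, Ne.symm hu.2.2]
  · intro u _ hu
    simp only [Finset.mem_insert, Finset.mem_singleton, not_or] at hu
    simp [ew, Ne.symm hu.1, Ne.symm hu.2.1, Ne.symm hu.2.2]

end Pool.Agent.Helper103.Flow
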