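import Pool.Agent.Helper103.Flow1
import Pool.Agent.Helper103.Flow2

namespace Pool.Agent.Helper103.Flow

open Finset

/-- the 27 edges of the example -/
def edges : List (Fin 11 × Fin 11) :=
  [(0, 2), (0, 3), (0, 4), (1, 2), (1, 3), (2, 4),
   (5, 6), (0, 5), (0, 6), (1, 5), (1, 6), (3, 5), (3, 6),
   (7, 8), (0, 7), (0, 8), (3, 7), (3, 8), (4, 7), (4, 8),
   (9, 10), (2, 9), (2, 10), (3, 9), (3, 10), (4, 9), (4, 10)]

/-- adjacency as bit masks -/
def adjB (a b : ℕ) : Bool :=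
  Nat.testBit ([508, 108, 1555, 2019, 1925, 75, 43, 281, 153, 1052, 540].getD a 0) b

/-- the example -/
def Gr : SimpleGraph (Fin 11) where
  Adj a b := adjB a b = true
  symm := ⟨by decide +kernel⟩
  loopless := ⟨by decide +kernel⟩

instance : DecidableRel Gr.Adj := fun a b => inferInstanceAs (Decidable (adjB a b = true))

theorem edgeFinset_eq : Gr.edgeFinset = (edges.map (fun p => s(p.1, p.2))).toFinset := by
  decide +kernel

theorem edges_nodup : (edges.map (fun p => s(p.1, p.2))).Nodup := by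
  decide +kernel

/-- weight of a colouring of the example -/
def H11 {R : Type} [CommRing R] (q : R) (l : List ℕ) : R :=
  (edges.map fun p => ew q (l.getD p.1 0) (l.getD p.2 0)).prod

theorem prod_eq (n : ℕ) (σ : Fin 11 → Fin n) :
    ∏ e ∈ Gr.edgeFinset, ((if Mono σ e then (n : ℤ) else 0) - 1)
      = H11 (n : ℤ) ([] ++ (List.ofFn σ).map Fin.val) := by
  rw [edgeFinset_eq, List.prod_toFinset _ edges_nodup, List.map_map, H11]
  congr 1
  refine List.map_congr_left fun p _ => ?_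
  have hget : ∀ a : Fin 11, ([] ++ (List.ofFn σ).map Fin.val).getD (a : ℕ) 0 = (σ a : ℕ) := by
    intro a
    rw [List.nil_append, List.getD_eq_getElem _ _ (by simp)]
    simp only [List.getElem_map, List.getElem_ofFn, Fin.eta]
  rw [hget, hget, Function.comp, ew]
  by_cases h : σ p.1 = σ p.2
  · rw [if_pos ((mono_mk σ _ _).2 h), if_pos (by rw [h])]
  · rw [if_neg (fun h' => h ((mono_mk σ _ _).1 h')), if_neg (fun h' => h (Fin.ext h'))]
    ring

/-- weight of a colouring of the five core vertices -/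
def H5 {R : Type} [CommRing R] (q : R) : List ℕ → R
  | [a, b, c, d, e] =>
    q ^ 6 * (ew q a c * ew q a d * ew q a e * ew q b c * ew q b d * ew q c e) *
      gw q a b d * gw q a d e * gw q c d e
  | _ => 0

theorem eliminate (n : ℕ) (a0 a1 a2 a3 a4 : ℕ) (h0 : a0 < n) (h1 : a1 < n) (h2 : a2 < n)
    (h3 : a3 < n) (h4 : a4 < n) :
    csum n (H11 (n : ℤ)) 6 [a0, a1, a2, a3, a4] = H5 (n : ℤ) [a0, a1, a2, a3, a4] := by
  have hg1 := gadget n a0 a1 a3 h0 h1 h3
  have hg2 := gadget n a0 a3 a4 h0 h3 h4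
  have hg3 := gadget n a2 a3 a4 h2 h3 h4
  set q : ℤ := (n : ℤ) with hq
  have hprod : ∀ a5 a6 a7 a8 a9 a10 : ℕ,
      H11 q [a0, a1, a2, a3, a4, a5, a6, a7, a8, a9, a10]
      = (ew q a0 a2 * ew q a0 a3 * ew q a0 a4 * ew q a1 a2 * ew q a1 a3 * ew q a2 a4) *
        ((ew q a0 a5 * ew q a1 a5 * ew q a3 a5) * (ew q a0 a6 * ew q a1 a6 * ew q a3 a6) *
          ew q a5 a6) *
        ((ew q a0 a7 * ew q a3 a7 * ew q a4 a7) * (ew q a0 a8 * ew q a3 a8 * ew q a4 a8) *
          ew q a7 a8) *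
        ((ew q a2 a9 * ew q a3 a9 * ew q a4 a9) * (ew q a2 a10 * ew q a3 a10 * ew q a4 a10) *
          ew q a9 a10) := by
    intro a5 a6 a7 a8 a9 a10
    simp [H11, edges]
    ring
  simp only [csum, List.cons_append, List.nil_append, hprod]
  simp only [← Finset.mul_sum, ← Finset.sum_mul]
  rw [hg1, hg2, hg3]
  simp [H5]
  ring

theorem H5_perm {R : Type} [CommRing R] (q : R) (π : Equiv.Perm ℕ) (l : List ℕ) :
    H5 q (l.map π) = H5 q l := by
  rcases l with _ | ⟨a, _ | ⟨b, _ | ⟨c, _ | ⟨d, _ | ⟨e, _ | ⟨f, l⟩⟩⟩⟩⟩⟩ <;>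
    simp [H5, ew, gw, π.injective.eq_iff]

theorem H5_map {R S : Type} [CommRing R] [CommRing S] (φ : R →+* S) (q : R) (l : List ℕ) :
    φ (H5 q l) = H5 (φ q) l := by
  rcases l with _ | ⟨a, _ | ⟨b, _ | ⟨c, _ | ⟨d, _ | ⟨e, _ | ⟨f, l⟩⟩⟩⟩⟩⟩ <;>
    simp [H5, ew_map, gw_map]

theorem potts_eval (n : ℕ) :
    (pottsPoly Gr.edgeFinset).eval (n : ℤ) = psum (n : ℤ) (H5 (n : ℤ)) 5 0 [] := by
  rw [pottsPoly_eval, Finset.sum_congr rfl (fun σ _ => prod_eq n σ), csum_fun]
  rw [show (11 : ℕ) = 5 + 6 from rfl, csum_add]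
  rw [← csum_eq_psum n (H5 (n : ℤ)) (H5_perm _) 5 0 [] (Nat.zero_le _) (by simp)]
  refine csum_congr n _ _ 5 [] (by simp) ?_
  intro l' h1 h2
  match l', h1, h2 with
  | [a, b, c, d, e], _, h2 =>
    exact eliminate n a b c d e (h2 a (by simp)) (h2 b (by simp)) (h2 c (by simp))
      (h2 d (by simp)) (h2 e (by simp))

theorem pottsPoly_eq :
    pottsPoly Gr.edgeFinset = psum (Polynomial.X : Polynomial ℤ) (H5 Polynomial.X) 5 0 [] := by
  apply Polynomial.eq_of_infinite_eval_eq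
  refine Set.Infinite.mono (s := Set.range (fun n : ℕ => (n : ℤ))) ?_
    (Set.infinite_range_of_injective Nat.cast_injective)
  rintro _ ⟨n, rfl⟩
  show Polynomial.eval (n : ℤ) _ = Polynomial.eval (n : ℤ) _
  rw [potts_eval, ← Polynomial.coe_evalRingHom, psum_map]
  simp only [H5_map, Polynomial.coe_evalRingHom, Polynomial.eval_X]

theorem flow_eq (q : ℝ) (hq : q ≠ 0) :
    q ^ 11 * flowPoly Gr q = psum q (H5 q) 5 0 [] := by
  have h := flowPoly_eq Gr q hq
  rw [Fintype.card_fin] at h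
  rw [h, pottsPoly_eq]
  have h2 := psum_map (Polynomial.aeval (R := ℤ) q).toRingHom Polynomial.X (H5 Polynomial.X) 5 0 []
  simp only [H5_map] at h2
  simpa using h2

theorem flow_eq_rat (q : ℚ) (hq : q ≠ 0) :
    (q : ℝ) ^ 11 * flowPoly Gr q = ((psum q (H5 q) 5 0 [] : ℚ) : ℝ) := by
  rw [flow_eq _ (by exact_mod_cast hq)]
  have h2 := psum_map (Rat.castHom ℝ) q (H5 q) 5 0 []
  simp only [H5_map] at h2
  simpa using h2.symm

theorem val1 : 0 < psum (3 / 2 : ℚ) (H5 (3 / 2)) 5 0 [] := by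
  decide +kernel

theorem val2 : psum (99 / 50 : ℚ) (H5 (99 / 50)) 5 0 [] < 0 := by
  decide +kernel

end Pool.Agent.Helper103.Flow
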