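import Pool.Agent.Helper103.Flow3

namespace Pool.Agent.Helper103.Flow

open Finset

/-- breadth first search inside the kept vertices -/
def reach (keep : Fin 11 → Bool) : ℕ → List (Fin 11) → List (Fin 11)
  | 0, T => T
  | k + 1, T => reach keep k ((List.finRange 11).filter fun v =>
      keep v && (T.contains v || T.any fun w => adjB w v))

theorem reach_sound (keep : Fin 11 → Bool) (r : {v : Fin 11 | keep v = true}) (k : ℕ)
    (T : List (Fin 11))
    (hT : ∀ v ∈ T, ∃ h : keep v = true,
      (Gr.induce {v : Fin 11 | keep v = true}).Reachable r ⟨v, h⟩) :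
    ∀ v ∈ reach keep k T, ∃ h : keep v = true,
      (Gr.induce {v : Fin 11 | keep v = true}).Reachable r ⟨v, h⟩ := by
  induction k generalizing T with
  | zero => exact hT
  | succ k ih =>
    refine ih _ ?_
    intro v hv
    rw [List.mem_filter] at hv
    obtain ⟨-, hv⟩ := hv
    rw [Bool.and_eq_true, Bool.or_eq_true, List.contains_iff_mem, List.any_eq_true] at hv
    obtain ⟨hk, hv⟩ := hv
    rcases hv with hv | ⟨w, hw, hwv⟩
    · exact hT v hv
    · obtain ⟨hkw, hr⟩ := hT w hw
      refine ⟨hk, hr.trans ?_⟩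
      refine SimpleGraph.Adj.reachable ?_
      rw [SimpleGraph.induce_adj]
      exact hwv

theorem conn_of (keep : Fin 11 → Bool) (r : Fin 11) (hr : keep r = true)
    (hall : ∀ v, keep v = true → v ∈ reach keep 6 [r]) :
    (Gr.induce {v : Fin 11 | keep v = true}).Connected := by
  rw [SimpleGraph.connected_iff_exists_forall_reachable]
  refine ⟨⟨r, hr⟩, ?_⟩
  rintro ⟨v, hv⟩
  have h := reach_sound keep ⟨r, hr⟩ 6 [r] (by
    intro w hw
    rw [List.mem_singleton] at hw
    subst hw
    exact ⟨hr, SimpleGraph.Reachable.refl _⟩) v (hall v hv)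
  exact h.2

theorem check2 : ∀ a b : Fin 11, ∃ r : Fin 11, (r != a && r != b) = true ∧
    ∀ v : Fin 11, (v != a && v != b) = true → v ∈ reach (fun v => v != a && v != b) 6 [r] := by
  decide +kernel

theorem check0 : ∀ v : Fin 11, v ∈ reach (fun _ => true) 6 [0] := by
  decide +kernel

theorem gr_threeConnected : ThreeConnected Gr := by
  refine ⟨by simp, ?_⟩
  intro S hS
  have h2 : ∀ a b : Fin 11, S = {a, b} → (Gr.induce {v : Fin 11 | v ∉ S}).Connected := by
    intro a b hab
    obtain ⟨r, hr, hall⟩ := check2 a b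
    have := conn_of (fun v => v != a && v != b) r hr hall
    have hs : {v : Fin 11 | v ∉ S} = {v : Fin 11 | (v != a && v != b) = true} := by
      ext v
      simp [hab]
    rw [hs]
    exact this
  rcases Nat.lt_or_ge S.card 1 with h | h
  · have hS0 : S = ∅ := by
      rw [← Finset.card_eq_zero]; omega
    have := conn_of (fun _ => true) 0 rfl (fun v _ => check0 v)
    have hs : {v : Fin 11 | v ∉ S} = {v : Fin 11 | (fun _ : Fin 11 => true) v = true} := by
      ext v
      simp [hS0]
    rw [hs]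
    exact this
  · rcases Nat.lt_or_ge S.card 2 with h' | h'
    · obtain ⟨a, ha⟩ := Finset.card_eq_one.1 (show S.card = 1 by omega)
      exact h2 a a (by rw [ha]; simp)
    · obtain ⟨a, b, -, hab⟩ := Finset.card_eq_two.1 (show S.card = 2 by omega)
      exact h2 a b hab

theorem gr_not_eulerian : ¬ Eulerian Gr := by
  rintro ⟨-, h⟩
  have h0 := h 0
  have : Gr.degree 0 = 7 := by decide +kernel
  rw [this] at h0
  exact absurd h0 (by decide)

theorem gr_card : Gr.edgeFinset.card = 27 := by
  rw [edgeFinset_eq]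
  decide +kernel

theorem flow_cont : ContinuousOn (flowPoly Gr) (Set.Icc (3 / 2) (99 / 50)) := by
  unfold flowPoly
  refine continuousOn_finsetSum _ fun A _ => ?_
  refine ContinuousOn.mul continuousOn_const ?_
  refine ContinuousOn.zpow₀ continuousOn_id _ ?_
  intro x hx
  left
  have := hx.1
  simp only [id]
  linarith

theorem flow_pos : 0 < flowPoly Gr (3 / 2) := by
  have h := flow_eq_rat (3 / 2) (by norm_num)
  have hv : (0 : ℝ) < ((psum (3 / 2 : ℚ) (H5 (3 / 2)) 5 0 [] : ℚ) : ℝ) := by
    exact_mod_cast val1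
  rw [← h] at hv
  have hq : ((3 / 2 : ℚ) : ℝ) = 3 / 2 := by norm_num
  rw [hq] at hv
  by_contra hcon
  push Not at hcon
  have := mul_nonpos_of_nonneg_of_nonpos (show (0 : ℝ) ≤ (3 / 2) ^ 11 by positivity) hcon
  linarith

theorem flow_neg : flowPoly Gr (99 / 50) < 0 := by
  have h := flow_eq_rat (99 / 50) (by norm_num)
  have hv : ((psum (99 / 50 : ℚ) (H5 (99 / 50)) 5 0 [] : ℚ) : ℝ) < 0 := by
    exact_mod_cast val2
  rw [← h] at hv
  have hq : ((99 / 50 : ℚ) : ℝ) = 99 / 50 := by norm_num
  rw [hq] at hv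
  by_contra hcon
  push Not at hcon
  have := mul_nonneg (show (0 : ℝ) ≤ (99 / 50) ^ 11 by positivity) hcon
  linarith

theorem flow_root : ∃ q : ℝ, 1 < q ∧ q < 2 ∧ flowPoly Gr q = 0 := by
  have h := intermediate_value_Icc' (show (3 / 2 : ℝ) ≤ 99 / 50 by norm_num) flow_cont
  obtain ⟨q, hq, hq0⟩ := h ⟨flow_neg.le, flow_pos.le⟩
  refine ⟨q, ?_, ?_, hq0⟩
  · have := hq.1; linarith
  · have := hq.2; linarith

end Pool.Agent.Helper103.Flow
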