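import Mathlib

namespace Pool.Agent.Helper103.Flow

/-- `c(A)`: the number of connected components of the spanning subgraph `(V, A)`. -/
noncomputable def numComps {V : Type} (A : Finset (Sym2 V)) : ℕ :=
  Nat.card (SimpleGraph.fromEdgeSet (A : Set (Sym2 V))).ConnectedComponent

/-- The value at `q` of the flow polynomial,
`F(G,q) = ∑_{A ⊆ E} (-1)^{|E|-|A|} q^{|A|-|V|+c(A)}`. -/
noncomputable def flowPoly {V : Type} [Fintype V] [DecidableEq V] (G : SimpleGraph V)
    [DecidableRel G.Adj] (q : ℝ) : ℝ :=
  ∑ A ∈ G.edgeFinset.powerset,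
    (-1 : ℝ) ^ (G.edgeFinset.card - A.card) *
      q ^ ((A.card : ℤ) - (Fintype.card V : ℤ) + (numComps A : ℤ))

/-- `G` is 3-connected: at least 4 vertices, and deleting any set of at most 2 vertices
leaves a connected graph. -/
def ThreeConnected {V : Type} [Fintype V] (G : SimpleGraph V) : Prop :=
  4 ≤ Fintype.card V ∧
    ∀ S : Finset V, S.card ≤ 2 → (G.induce {v : V | v ∉ S}).Connected

/-- `G` is eulerian: connected with every vertex of even degree. -/
def Eulerian {V : Type} [Fintype V] (G : SimpleGraph V) [DecidableRel G.Adj] : Prop :=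
  G.Connected ∧ ∀ v : V, Even (G.degree v)

end Pool.Agent.Helper103.Flow
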