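import Mathlib

set_option autoImplicit false

namespace Pool.Agent.Helper103.Shift

lemma coprime_split (x y k : ℤ) (hk : k ≠ 0) (hxy : IsCoprime x y) (h : x * y = k ^ 2) :
    ∃ u v : ℤ, u * v = k ∧ ((x = u ^ 2 ∧ y = v ^ 2) ∨ (x = -u ^ 2 ∧ y = -v ^ 2)) := by
  obtain ⟨a, ha⟩ := Int.sq_of_isCoprime hxy h
  obtain ⟨b, hb⟩ := Int.sq_of_isCoprime hxy.symm (by rw [mul_comm]; exact h)
  have hk2 : 0 < k ^ 2 := by positivity
  have key : ∀ a b : ℤ, (a * b) ^ 2 = k ^ 2 → ∃ v : ℤ, a * v = k ∧ v ^ 2 = b ^ 2 := by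
    intro a b hab
    rcases sq_eq_sq_iff_eq_or_eq_neg.1 hab with h1 | h1
    · exact ⟨b, h1, rfl⟩
    · exact ⟨-b, by rw [mul_neg, h1, neg_neg], by ring⟩
  rcases ha with ha | ha <;> rcases hb with hb | hb
  · obtain ⟨v, hv, hv2⟩ := key a b (by rw [← h, ha, hb]; ring)
    exact ⟨a, v, hv, Or.inl ⟨ha, by rw [hb, hv2]⟩⟩
  · exfalso
    have : x * y = -(a * b) ^ 2 := by rw [ha, hb]; ring
    nlinarith [sq_nonneg (a * b)]
  · exfalso
    have : x * y = -(a * b) ^ 2 := by rw [ha, hb]; ring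
    nlinarith [sq_nonneg (a * b)]
  · obtain ⟨v, hv, hv2⟩ := key a b (by rw [← h, ha, hb]; ring)
    exact ⟨a, v, hv, Or.inr ⟨ha, by rw [hb, hv2]⟩⟩

lemma prime89 : Prime (89 : ℤ) := by
  rw [Int.prime_iff_natAbs_prime]; norm_num

lemma core_aux (P Q' s : ℤ) (hs : s ≠ 0) (hc : IsCoprime P Q') (hPQ : P * Q' = (2937 * s ^ 2) ^ 2) :
    ∃ c c' : ℤ, c * c' = 2937 * s ^ 2 ∧
      (P + 89 * Q' = c ^ 2 + 89 * c' ^ 2 ∨ P + 89 * Q' = -(c ^ 2 + 89 * c' ^ 2)) := by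
  obtain ⟨u, v, huv, h | h⟩ := coprime_split P Q' (2937 * s ^ 2) (by positivity) hc hPQ
  · exact ⟨u, v, huv, Or.inl (by rw [h.1, h.2])⟩
  · exact ⟨u, v, huv, Or.inr (by rw [h.1, h.2]; ring)⟩

lemma core_aux2 (P1 Q2 s : ℤ) (hs : s ≠ 0) (hc : IsCoprime P1 Q2) (hPQ : P1 * Q2 = (33 * s ^ 2) ^ 2) :
    ∃ c c' : ℤ, c * c' = 2937 * s ^ 2 ∧
      (89 * P1 + 7921 * Q2 = c ^ 2 + 89 * c' ^ 2 ∨
        89 * P1 + 7921 * Q2 = -(c ^ 2 + 89 * c' ^ 2)) := by
  obtain ⟨u, v, huv, h | h⟩ := coprime_split P1 Q2 (33 * s ^ 2) (by positivity) hc hPQ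
  · exact ⟨89 * v, u, by linear_combination 89 * huv, Or.inl (by rw [h.1, h.2]; ring)⟩
  · exact ⟨89 * v, u, by linear_combination 89 * huv, Or.inr (by rw [h.1, h.2]; ring)⟩

lemma core (P Q s : ℤ) (hs : s ≠ 0) (hPQ : P * Q = 767711241 * s ^ 4)
    (hg : ∀ q : ℤ, Prime q → q ∣ P → q ∣ Q → q ∣ 89)
    (h89 : (89 : ℤ) ∣ P → (89 : ℤ) ∣ Q → ¬ (89 : ℤ) ∣ s) :
    ∃ c c' : ℤ, c * c' = 2937 * s ^ 2 ∧
      (P + Q = c ^ 2 + 89 * c' ^ 2 ∨ P + Q = -(c ^ 2 + 89 * c' ^ 2)) := by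
  have hs4 : s ^ 4 ≠ 0 := pow_ne_zero 4 hs
  have hP0 : P ≠ 0 := by
    rintro rfl
    apply hs4
    linarith
  have hQ0 : Q ≠ 0 := by
    rintro rfl
    apply hs4
    linarith
  by_cases hb : (89 : ℤ) ∣ P ∧ (89 : ℤ) ∣ Q
  · have hns := h89 hb.1 hb.2
    obtain ⟨P1, hP1⟩ := hb.1
    obtain ⟨Q1, hQ1⟩ := hb.2
    have h1 : P1 * Q1 = 96921 * s ^ 4 := by
      have : (7921 : ℤ) * (P1 * Q1) = 7921 * (96921 * s ^ 4) := by
        rw [hP1, hQ1] at hPQ
        linear_combination hPQ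
      exact mul_left_cancel₀ (by norm_num) this
    have hP10 : P1 ≠ 0 := by rintro rfl; apply hP0; rw [hP1]; ring
    have hn89 : ¬ (89 ^ 2 : ℤ) ∣ P1 * Q1 := by
      rintro ⟨k, hk⟩
      rw [h1] at hk
      have h2 : (1089 : ℤ) * s ^ 4 = 89 * k := by
        have : (89 : ℤ) * (1089 * s ^ 4) = 89 * (89 * k) := by linear_combination hk
        exact mul_left_cancel₀ (by norm_num) this
      have h3 : (89 : ℤ) ∣ 1089 * s ^ 4 := ⟨k, h2⟩
      rcases prime89.dvd_or_dvd h3 with h4 | h4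
      · revert h4; norm_num
      · exact hns (prime89.dvd_of_dvd_pow h4)
    have hcop : IsCoprime P1 Q1 := by
      apply isCoprime_of_prime_dvd (fun h => hP10 h.1)
      intro z hz hzP hzQ
      have hz89 := hg z hz (hP1 ▸ Dvd.dvd.mul_left hzP 89) (hQ1 ▸ Dvd.dvd.mul_left hzQ 89)
      have hass := (Prime.dvd_prime_iff_associated hz prime89).1 hz89
      have h5 : (89 : ℤ) ∣ z := hass.symm.dvd
      apply hn89
      rw [pow_two]
      exact mul_dvd_mul (h5.trans hzP) (h5.trans hzQ)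
    have h6 : (89 : ℤ) ∣ P1 * Q1 := ⟨1089 * s ^ 4, by rw [h1]; ring⟩
    rcases prime89.dvd_or_dvd h6 with h7 | h7
    · obtain ⟨P2, hP2⟩ := h7
      have h8 : Q1 * P2 = (33 * s ^ 2) ^ 2 := by
        have : (89 : ℤ) * (Q1 * P2) = 89 * (33 * s ^ 2) ^ 2 := by
          rw [hP2] at h1
          linear_combination h1
        exact mul_left_cancel₀ (by norm_num) this
      have hcop2 : IsCoprime Q1 P2 := by
        rw [hP2] at hcop
        exact (hcop.symm).of_mul_right_right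
      obtain ⟨c, c', hcc, h9⟩ := core_aux2 Q1 P2 s hs hcop2 h8
      refine ⟨c, c', hcc, ?_⟩
      have h10 : P + Q = 89 * Q1 + 7921 * P2 := by rw [hP1, hQ1, hP2]; ring
      rw [h10]; exact h9
    · obtain ⟨Q2, hQ2⟩ := h7
      have h8 : P1 * Q2 = (33 * s ^ 2) ^ 2 := by
        have : (89 : ℤ) * (P1 * Q2) = 89 * (33 * s ^ 2) ^ 2 := by
          rw [hQ2] at h1
          linear_combination h1
        exact mul_left_cancel₀ (by norm_num) this
      have hcop2 : IsCoprime P1 Q2 := by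
        rw [hQ2] at hcop
        exact hcop.of_mul_right_right
      obtain ⟨c, c', hcc, h9⟩ := core_aux2 P1 Q2 s hs hcop2 h8
      refine ⟨c, c', hcc, ?_⟩
      have h10 : P + Q = 89 * P1 + 7921 * Q2 := by rw [hP1, hQ1, hQ2]; ring
      rw [h10]; exact h9
  · have hcop : IsCoprime P Q := by
      apply isCoprime_of_prime_dvd (fun h => hP0 h.1)
      intro z hz hzP hzQ
      have hz89 := hg z hz hzP hzQ
      have hass := (Prime.dvd_prime_iff_associated hz prime89).1 hz89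
      have h5 : (89 : ℤ) ∣ z := hass.symm.dvd
      exact hb ⟨h5.trans hzP, h5.trans hzQ⟩
    have h6 : (89 : ℤ) ∣ P * Q := ⟨8625969 * s ^ 4, by rw [hPQ]; ring⟩
    rcases prime89.dvd_or_dvd h6 with h7 | h7
    · obtain ⟨P', hP'⟩ := h7
      have h8 : Q * P' = (2937 * s ^ 2) ^ 2 := by
        have : (89 : ℤ) * (Q * P') = 89 * (2937 * s ^ 2) ^ 2 := by
          rw [hP'] at hPQ
          linear_combination hPQ
        exact mul_left_cancel₀ (by norm_num) this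
      have hcop2 : IsCoprime Q P' := by
        rw [hP'] at hcop
        exact (hcop.symm).of_mul_right_right
      obtain ⟨c, c', hcc, h9⟩ := core_aux Q P' s hs hcop2 h8
      refine ⟨c, c', hcc, ?_⟩
      have h10 : P + Q = Q + 89 * P' := by rw [hP']; ring
      rw [h10]; exact h9
    · obtain ⟨Q', hQ'⟩ := h7
      have h8 : P * Q' = (2937 * s ^ 2) ^ 2 := by
        have : (89 : ℤ) * (P * Q') = 89 * (2937 * s ^ 2) ^ 2 := by
          rw [hQ'] at hPQ
          linear_combination hPQ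
        exact mul_left_cancel₀ (by norm_num) this
      have hcop2 : IsCoprime P Q' := by
        rw [hQ'] at hcop
        exact hcop.of_mul_right_right
      obtain ⟨c, c', hcc, h9⟩ := core_aux P Q' s hs hcop2 h8
      refine ⟨c, c', hcc, ?_⟩
      have h10 : P + Q = P + 89 * Q' := by rw [hQ']
      rw [h10]; exact h9

end Pool.Agent.Helper103.Shift
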