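import Mathlib
import Pool.Agent.Helper103.Shift1

set_option autoImplicit false

namespace Pool.Agent.Helper103.Shift

lemma prime5 : Prime (5 : ℤ) := by
  rw [Int.prime_iff_natAbs_prime]; norm_num
lemma prime3 : Prime (3 : ℤ) := by
  rw [Int.prime_iff_natAbs_prime]; norm_num
lemma prime2 : Prime (2 : ℤ) := by
  rw [Int.prime_iff_natAbs_prime]; norm_num
lemma prime11 : Prime (11 : ℤ) := by
  rw [Int.prime_iff_natAbs_prime]; norm_num

lemma mod3_aux (x y : ℤ) : (x + y) % 3 = 1 → (x * y) % 3 = 2 → False := by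
  intro h1 h2
  have hx : x % 3 = 0 ∨ x % 3 = 1 ∨ x % 3 = 2 := by omega
  have hy : y % 3 = 0 ∨ y % 3 = 1 ∨ y % 3 = 2 := by omega
  rcases hx with hx | hx | hx <;> rcases hy with hy | hy | hy <;>
    simp [Int.add_emod, Int.mul_emod, hx, hy] at h1 h2

lemma sq_mod3 (r : ℤ) (h : ¬ (3 : ℤ) ∣ r) : r ^ 2 % 3 = 1 := by
  have hx : r % 3 = 1 ∨ r % 3 = 2 := by omega
  rcases hx with hx | hx <;> simp [pow_two, Int.mul_emod, hx]

lemma second (u r K : ℤ) (hr : r ≠ 0) (hur : IsCoprime u r)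
    (hK : K ^ 2 = (u ^ 2 + 72579 * r ^ 2) ^ 2 - 4500000000 * r ^ 4)
    (hK2 : ¬ (2 : ℤ) ∣ K) (hK5 : ¬ (5 : ℤ) ∣ K) :
    ∃ p q : ℤ, p * q = 15000 * r ^ 2 ∧ p ^ 2 + 5 * q ^ 2 = u ^ 2 + 72579 * r ^ 2 ∧
      IsCoprime p (5 * q) := by
  have hX : (u ^ 2 + 72579 * r ^ 2) % 2 = 1 := by
    have hK1 : K % 2 = 1 := by omega
    by_contra hne
    have h0 : (u ^ 2 + 72579 * r ^ 2) % 2 = 0 := by omega
    obtain ⟨m, hm⟩ : (2 : ℤ) ∣ (u ^ 2 + 72579 * r ^ 2) := Int.dvd_of_emod_eq_zero h0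
    rw [hm] at hK
    have : (2 : ℤ) ∣ K ^ 2 := ⟨2 * m ^ 2 - 2250000000 * r ^ 4, by rw [hK]; ring⟩
    exact hK2 (prime2.dvd_of_dvd_pow this)
  have hK1 : K % 2 = 1 := by omega
  obtain ⟨A, hA⟩ : ∃ A : ℤ, u ^ 2 + 72579 * r ^ 2 - K = 2 * A :=
    ⟨(u ^ 2 + 72579 * r ^ 2 - K) / 2, by omega⟩
  obtain ⟨B, hB⟩ : ∃ B : ℤ, u ^ 2 + 72579 * r ^ 2 + K = 2 * B :=
    ⟨(u ^ 2 + 72579 * r ^ 2 + K) / 2, by omega⟩
  have hsum : A + B = u ^ 2 + 72579 * r ^ 2 := by linarith
  have hdiff : B - A = K := by linarith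
  have hprod : A * B = 1125000000 * r ^ 4 := by
    have : 4 * (A * B) = 4 * (1125000000 * r ^ 4) := by
      linear_combination (-(2 * B)) * hA - (u ^ 2 + 72579 * r ^ 2 - K) * hB - hK
    exact mul_left_cancel₀ (by norm_num) this
  have hr2 : 0 < r ^ 2 := by positivity
  have hr4 : 0 < r ^ 4 := by positivity
  have hpos : 0 < A + B := by rw [hsum]; nlinarith [sq_nonneg u]
  have hprodpos : 0 < A * B := by rw [hprod]; positivity
  have hApos : 0 < A := by
    by_contra h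
    have hA0 : A ≤ 0 := not_lt.1 h
    have hBneg : 0 < B := by linarith
    nlinarith
  have hBpos : 0 < B := by
    by_contra h
    have hB0 : B ≤ 0 := not_lt.1 h
    nlinarith
  have hcop : IsCoprime A B := by
    apply isCoprime_of_prime_dvd (fun h => hApos.ne' h.1)
    intro z hz hzA hzB
    have hzK : z ∣ K := by rw [← hdiff]; exact dvd_sub hzB hzA
    have hzS : z ∣ u ^ 2 + 72579 * r ^ 2 := by rw [← hsum]; exact dvd_add hzA hzB
    have hzr : ¬ z ∣ r := by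
      intro h
      have : z ∣ u ^ 2 := by
        have h1 : z ∣ 72579 * r ^ 2 := Dvd.dvd.mul_left (Dvd.dvd.trans h (dvd_pow_self r (by norm_num))) _
        exact (dvd_add_left h1).1 hzS
      have hzu := hz.dvd_of_dvd_pow this
      exact hz.not_unit (hur.isUnit_of_dvd' hzu h)
    have hzb : z ∣ 1125000000 * r ^ 4 := by rw [← hprod]; exact Dvd.dvd.mul_right hzA B
    have hzb2 : z ∣ 1125000000 := by
      rcases hz.dvd_or_dvd hzb with h | h
      · exact h
      · exact absurd (hz.dvd_of_dvd_pow h) hzr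
    have h235 : z ∣ 2 ∨ z ∣ 3 ∨ z ∣ 5 := by
      have : (1125000000 : ℤ) = 2 ^ 6 * (3 ^ 2 * 5 ^ 9) := by norm_num
      rw [this] at hzb2
      rcases hz.dvd_or_dvd hzb2 with h | h
      · exact Or.inl (hz.dvd_of_dvd_pow h)
      · rcases hz.dvd_or_dvd h with h | h
        · exact Or.inr (Or.inl (hz.dvd_of_dvd_pow h))
        · exact Or.inr (Or.inr (hz.dvd_of_dvd_pow h))
    rcases h235 with h | h | h
    · exact hK2 (((Prime.dvd_prime_iff_associated hz prime2).1 h).symm.dvd.trans hzK)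
    · have h3z := ((Prime.dvd_prime_iff_associated hz prime3).1 h).symm.dvd
      have h3A := h3z.trans hzA
      have h3B := h3z.trans hzB
      have h3r : ¬ (3 : ℤ) ∣ r := fun h' =>
        hzr (((Prime.dvd_prime_iff_associated hz prime3).1 h).dvd.trans h')
      have h3S : (3 : ℤ) ∣ u ^ 2 + 72579 * r ^ 2 := h3z.trans hzS
      have h3u : (3 : ℤ) ∣ u := by
        have h1 : (3 : ℤ) ∣ 72579 * r ^ 2 := ⟨24193 * r ^ 2, by ring⟩
        exact prime3.dvd_of_dvd_pow ((dvd_add_left h1).1 h3S)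
      obtain ⟨A1, hA1⟩ := h3A
      obtain ⟨B1, hB1⟩ := h3B
      obtain ⟨u1, hu1⟩ := h3u
      have e1 : A1 + B1 = 3 * u1 ^ 2 + 24193 * r ^ 2 := by
        rw [hA1, hB1, hu1] at hsum
        linarith
      have e2 : A1 * B1 = 125000000 * r ^ 4 := by
        rw [hA1, hB1] at hprod
        have : (9 : ℤ) * (A1 * B1) = 9 * (125000000 * r ^ 4) := by linear_combination hprod
        exact mul_left_cancel₀ (by norm_num) this
      have hrm := sq_mod3 r h3r
      apply mod3_aux A1 B1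
      · rw [e1]; omega
      · rw [e2]
        have : r ^ 4 = r ^ 2 * r ^ 2 := by ring
        rw [this, Int.mul_emod, Int.mul_emod (r ^ 2), hrm]
        norm_num
    · exact hK5 (((Prime.dvd_prime_iff_associated hz prime5).1 h).symm.dvd.trans hzK)
  have h5 : (5 : ℤ) ∣ A * B := ⟨225000000 * r ^ 4, by rw [hprod]; ring⟩
  have hk0 : (15000 * r ^ 2 : ℤ) ≠ 0 := by positivity
  have fin : ∀ A B : ℤ, 0 < A → IsCoprime A B → A * B = 1125000000 * r ^ 4 → (5 : ℤ) ∣ B →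
      ∃ p q : ℤ, p * q = 15000 * r ^ 2 ∧ p ^ 2 + 5 * q ^ 2 = A + B ∧ IsCoprime p (5 * q) := by
    intro A B hA0 hAB hABp h5B
    obtain ⟨B', hB'⟩ := h5B
    have h6 : A * B' = (15000 * r ^ 2) ^ 2 := by
      have : (5 : ℤ) * (A * B') = 5 * (15000 * r ^ 2) ^ 2 := by
        rw [hB'] at hABp
        linear_combination hABp
      exact mul_left_cancel₀ (by norm_num) this
    have hcop2 : IsCoprime A B' := by
      rw [hB'] at hAB
      exact hAB.of_mul_right_right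
    obtain ⟨p, q, hpq, h | h⟩ := coprime_split A B' (15000 * r ^ 2) hk0 hcop2 h6
    · refine ⟨p, q, hpq, by rw [hB', h.1, h.2], ?_⟩
      rw [hB', h.1] at hAB
      have h7 : IsCoprime p (5 * B') := IsCoprime.of_isCoprime_of_dvd_left hAB (dvd_pow_self p (by norm_num))
      refine IsCoprime.of_isCoprime_of_dvd_right h7 ?_
      rw [h.2]
      exact mul_dvd_mul_left 5 (dvd_pow_self q (by norm_num))
    · exfalso
      nlinarith [sq_nonneg p, h.1]
  rcases prime5.dvd_or_dvd h5 with h | h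
  · obtain ⟨p, q, h1, h2, h3⟩ := fin B A hBpos hcop.symm (by rw [mul_comm]; exact hprod) h
    exact ⟨p, q, h1, by rw [h2, add_comm]; exact hsum, h3⟩
  · obtain ⟨p, q, h1, h2, h3⟩ := fin A B hApos hcop hprod h
    exact ⟨p, q, h1, by rw [h2]; exact hsum, h3⟩

end Pool.Agent.Helper103.Shift
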