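import Mathlib
import Pool.Agent.Helper103.Shift2

set_option autoImplicit false

namespace Pool.Agent.Helper103.Shift

lemma not3 (M e N : ℤ) (hc : IsCoprime M e)
    (hN : N ^ 2 = M ^ 4 - 72579 * M ^ 2 * e ^ 2 + 1125000000 * e ^ 4) : ¬ (3 : ℤ) ∣ M := by
  rintro ⟨M1, hM1⟩
  have h3e : ¬ (3 : ℤ) ∣ e := fun h =>
    prime3.not_isUnit (hc.isUnit_of_dvd' ⟨M1, hM1⟩ h)
  have h3N : (3 : ℤ) ∣ N := by
    apply prime3.dvd_of_dvd_pow (n := 2)
    rw [hN, hM1]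
    exact ⟨27 * M1 ^ 4 - 217737 * M1 ^ 2 * e ^ 2 + 375000000 * e ^ 4, by ring⟩
  obtain ⟨N1, hN1⟩ := h3N
  have h1 : N1 ^ 2 = 9 * M1 ^ 4 - 72579 * M1 ^ 2 * e ^ 2 + 125000000 * e ^ 4 := by
    have : (9 : ℤ) * N1 ^ 2 = 9 * (9 * M1 ^ 4 - 72579 * M1 ^ 2 * e ^ 2 + 125000000 * e ^ 4) := by
      rw [hN1, hM1] at hN
      linear_combination hN
    exact mul_left_cancel₀ (by norm_num) this
  have he := sq_mod3 e h3e
  have he4 : e ^ 4 % 3 = 1 := by
    have : e ^ 4 = e ^ 2 * e ^ 2 := by ring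
    rw [this, Int.mul_emod, he]; norm_num
  have hN1m : N1 ^ 2 % 3 = 0 ∨ N1 ^ 2 % 3 = 1 := by
    have hx : N1 % 3 = 0 ∨ N1 % 3 = 1 ∨ N1 % 3 = 2 := by omega
    rcases hx with hx | hx | hx <;> simp [pow_two, Int.mul_emod, hx]
  have h2 : N1 ^ 2 = 3 * (3 * M1 ^ 4 - 24193 * (M1 ^ 2 * e ^ 2)) + 125000000 * e ^ 4 := by
    rw [h1]; ring
  omega

lemma primes_common (P Q m s : ℤ) (hms : IsCoprime m s) (h3 : ¬ (3 : ℤ) ∣ m)
    (hsum : P + Q = m ^ 2 - 145158 * s ^ 2) (hprod : P * Q = 767711241 * s ^ 4) :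
    (∀ q : ℤ, Prime q → q ∣ P → q ∣ Q → q ∣ 89) ∧
    ((89 : ℤ) ∣ P → (89 : ℤ) ∣ Q → ¬ (89 : ℤ) ∣ s) := by
  have key : ∀ q : ℤ, Prime q → q ∣ P → q ∣ Q → ¬ q ∣ s := by
    intro q hq hqP hqQ hqs
    have h1 : q ∣ m ^ 2 - 145158 * s ^ 2 := by rw [← hsum]; exact dvd_add hqP hqQ
    have h2 : q ∣ 145158 * s ^ 2 :=
      Dvd.dvd.mul_left (Dvd.dvd.trans hqs (dvd_pow_self s (by norm_num))) _
    have h4 : q ∣ m := hq.dvd_of_dvd_pow ((dvd_sub_left h2).1 h1)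
    exact hq.not_isUnit (hms.isUnit_of_dvd' h4 hqs)
  refine ⟨?_, fun h1 h2 => key 89 prime89 h1 h2⟩
  intro q hq hqP hqQ
  have hqs := key q hq hqP hqQ
  have hS : q ∣ m ^ 2 - 145158 * s ^ 2 := by rw [← hsum]; exact dvd_add hqP hqQ
  have hb : q ∣ 767711241 * s ^ 4 := by rw [← hprod]; exact Dvd.dvd.mul_right hqP Q
  have hb2 : q ∣ 767711241 := by
    rcases hq.dvd_or_dvd hb with h | h
    · exact h
    · exact absurd (hq.dvd_of_dvd_pow h) hqs
  have h235 : q ∣ 3 ∨ q ∣ 11 ∨ q ∣ 89 := by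
    have : (767711241 : ℤ) = 3 ^ 2 * (11 ^ 2 * 89 ^ 3) := by norm_num
    rw [this] at hb2
    rcases hq.dvd_or_dvd hb2 with h | h
    · exact Or.inl (hq.dvd_of_dvd_pow h)
    · rcases hq.dvd_or_dvd h with h | h
      · exact Or.inr (Or.inl (hq.dvd_of_dvd_pow h))
      · exact Or.inr (Or.inr (hq.dvd_of_dvd_pow h))
  rcases h235 with h | h | h
  · exfalso
    have h3q := ((Prime.dvd_prime_iff_associated hq prime3).1 h).symm.dvd
    have h3S := h3q.trans hS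
    apply h3
    have h1 : (3 : ℤ) ∣ 145158 * s ^ 2 := ⟨48386 * s ^ 2, by ring⟩
    exact prime3.dvd_of_dvd_pow ((dvd_sub_left h1).1 h3S)
  · exfalso
    have h11q := ((Prime.dvd_prime_iff_associated hq prime11).1 h).symm.dvd
    have h11S := h11q.trans hS
    have h11s : ¬ (11 : ℤ) ∣ s := fun h' =>
      hqs (((Prime.dvd_prime_iff_associated hq prime11).1 h).dvd.trans h')
    have h1 : (m ^ 2 - 2 * s ^ 2) % 11 = 0 := by omega
    have hm : m % 11 = 0 ∨ m % 11 = 1 ∨ m % 11 = 2 ∨ m % 11 = 3 ∨ m % 11 = 4 ∨ m % 11 = 5 ∨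
      m % 11 = 6 ∨ m % 11 = 7 ∨ m % 11 = 8 ∨ m % 11 = 9 ∨ m % 11 = 10 := by omega
    have hs : s % 11 = 1 ∨ s % 11 = 2 ∨ s % 11 = 3 ∨ s % 11 = 4 ∨ s % 11 = 5 ∨
      s % 11 = 6 ∨ s % 11 = 7 ∨ s % 11 = 8 ∨ s % 11 = 9 ∨ s % 11 = 10 := by omega
    rcases hm with hm | hm | hm | hm | hm | hm | hm | hm | hm | hm | hm <;>
      rcases hs with hs | hs | hs | hs | hs | hs | hs | hs | hs | hs <;>
      simp [pow_two, Int.sub_emod, Int.mul_emod, hm, hs] at h1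
  · exact h

lemma core2 (P Q m s : ℤ) (hs : s ≠ 0) (hms : IsCoprime m s) (h3 : ¬ (3 : ℤ) ∣ m)
    (hsum : P + Q = m ^ 2 - 145158 * s ^ 2) (hprod : P * Q = 767711241 * s ^ 4) :
    ∃ c c' : ℤ, c * c' = 2937 * s ^ 2 ∧
      (m ^ 2 - 145158 * s ^ 2 = c ^ 2 + 89 * c' ^ 2 ∨
        m ^ 2 - 145158 * s ^ 2 = -(c ^ 2 + 89 * c' ^ 2)) := by
  obtain ⟨h1, h2⟩ := primes_common P Q m s hms h3 hsum hprod
  obtain ⟨c, c', hcc, h⟩ := core P Q s hs hprod h1 h2
  exact ⟨c, c', hcc, by rw [← hsum]; exact h⟩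

lemma sq_mod8 (x : ℤ) : x ^ 2 % 8 = 0 ∨ x ^ 2 % 8 = 1 ∨ x ^ 2 % 8 = 4 := by
  have hx : x % 8 = 0 ∨ x % 8 = 1 ∨ x % 8 = 2 ∨ x % 8 = 3 ∨ x % 8 = 4 ∨ x % 8 = 5 ∨
    x % 8 = 6 ∨ x % 8 = 7 := by omega
  rcases hx with hx | hx | hx | hx | hx | hx | hx | hx <;> simp [pow_two, Int.mul_emod, hx]

lemma odd_sq (x : ℤ) (h : ¬ (2 : ℤ) ∣ x) : ∃ y : ℤ, x ^ 2 = 8 * y + 1 := by
  have hx : x % 8 = 1 ∨ x % 8 = 3 ∨ x % 8 = 5 ∨ x % 8 = 7 := by omega
  have : x ^ 2 % 8 = 1 := by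
    rcases hx with hx | hx | hx | hx <;> simp [pow_two, Int.mul_emod, hx]
  exact ⟨x ^ 2 / 8, by omega⟩

lemma not4 (M e N : ℤ) (hc : IsCoprime M e)
    (hN : N ^ 2 = M ^ 4 - 72579 * M ^ 2 * e ^ 2 + 1125000000 * e ^ 4) : ¬ (4 : ℤ) ∣ M := by
  intro h4
  have h3 := not3 M e N hc hN
  have h2M : (2 : ℤ) ∣ M := Dvd.dvd.trans ⟨2, by norm_num⟩ h4
  have h2e : ¬ (2 : ℤ) ∣ e := fun h => prime2.not_isUnit (hc.isUnit_of_dvd' h2M h)
  have he0 : e ≠ 0 := by rintro rfl; exact h2e (dvd_zero 2)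
  have hcop : IsCoprime (2 * M) e := by
    refine IsCoprime.mul_left ?_ hc
    exact (prime2.coprime_iff_not_dvd).2 h2e
  have h32 : ¬ (3 : ℤ) ∣ 2 * M := by
    intro h
    rcases prime3.dvd_or_dvd h with h | h
    · revert h; norm_num
    · exact h3 h
  obtain ⟨c, c', hcc, h⟩ := core2 (2 * M ^ 2 - 72579 * e ^ 2 - 2 * N)
    (2 * M ^ 2 - 72579 * e ^ 2 + 2 * N) (2 * M) e he0 hcop h32 (by ring)
    (by linear_combination (-4) * hN)
  obtain ⟨y, hy⟩ := odd_sq e h2e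
  obtain ⟨k, hk⟩ := h4
  have hcodd : ¬ (2 : ℤ) ∣ c := by
    intro h2
    have : (2 : ℤ) ∣ 2937 * e ^ 2 := by rw [← hcc]; exact Dvd.dvd.mul_right h2 c'
    rw [hy] at this
    omega
  have hm8 : (2 * M) ^ 2 - 145158 * e ^ 2 = 8 * (8 * k ^ 2 - 145158 * y - 18145) + 2 := by
    rw [hk, hy]; ring
  have hc8 := sq_mod8 c
  have hc8' := sq_mod8 c'
  rcases h with h | h
  · obtain ⟨x, hx⟩ := odd_sq c hcodd
    have h5 : 64 * k ^ 2 * c ^ 2 = c ^ 4 + 145158 * c ^ 2 * e ^ 2 + 767711241 * e ^ 4 := by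
      have h6 : (c * c') ^ 2 = (2937 * e ^ 2) ^ 2 := by rw [hcc]
      rw [hk] at h
      linear_combination c ^ 2 * h + 89 * h6
    have h7 : c ^ 4 + 145158 * c ^ 2 * e ^ 2 + 767711241 * e ^ 4 =
        32 * (2 * x ^ 2 + 36290 * x + 290316 * (x * y) + 383891910 * y + 1535422482 * y ^ 2
          + 23995512) + 16 := by
      have : c ^ 4 = (c ^ 2) ^ 2 := by ring
      rw [this]
      have : e ^ 4 = (e ^ 2) ^ 2 := by ring
      rw [this, hx, hy]; ring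
    have h8 : 64 * k ^ 2 * c ^ 2 = 32 * (2 * (k ^ 2 * c ^ 2)) := by ring
    omega
  · omega

theorem descent : ∀ n : ℕ, ∀ M e N : ℤ, e.natAbs ≤ n → ¬ (2 : ℤ) ∣ M → ¬ (5 : ℤ) ∣ M →
    IsCoprime M e → e ≠ 0 →
    N ^ 2 = M ^ 4 - 72579 * M ^ 2 * e ^ 2 + 1125000000 * e ^ 4 → False := by
  intro n
  induction n with
  | zero =>
    intro M e N hn _ _ _ he _
    exact he (Int.natAbs_eq_zero.1 (Nat.le_zero.1 hn))
  | succ n ih =>
    intro M e N hn h2 h5 hc he hN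
    have h3 := not3 M e N hc hN
    obtain ⟨x, hx⟩ := odd_sq M h2
    have h2e : (2 : ℤ) ∣ e := by
      by_contra h2e
      obtain ⟨y, hy⟩ := odd_sq e h2e
      have hN8 := sq_mod8 N
      have : N ^ 2 = 8 * (8 * x ^ 2 + 2 * x - 72579 * (8 * (x * y) + x + y) + 140625000 * e ^ 4
          - 9073) + 6 := by
        rw [hN]
        have : M ^ 4 = (M ^ 2) ^ 2 := by ring
        rw [this, hx, hy]; ring
      omega
    obtain ⟨s, hs⟩ := h2e
    have hs0 : s ≠ 0 := by rintro rfl; apply he; rw [hs]; ring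
    have hcs : IsCoprime M s := by
      rw [hs] at hc
      exact hc.of_mul_right_right
    have hN' : N ^ 2 = M ^ 4 - 290316 * M ^ 2 * s ^ 2 + 18000000000 * s ^ 4 := by
      rw [hN, hs]; ring
    have hNodd : N % 2 = 1 := by
      by_contra hne
      obtain ⟨m, hm⟩ : (2 : ℤ) ∣ N := by omega
      have h1 : M ^ 4 = 2 * (2 * m ^ 2 + 145158 * (M ^ 2 * s ^ 2) - 9000000000 * s ^ 4) := by
        rw [hm] at hN'
        linear_combination -hN'
      exact h2 (prime2.dvd_of_dvd_pow ⟨_, h1⟩)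
    obtain ⟨P, hP⟩ : ∃ P : ℤ, M ^ 2 - 145158 * s ^ 2 - N = 2 * P :=
      ⟨(M ^ 2 - 145158 * s ^ 2 - N) / 2, by omega⟩
    obtain ⟨Q, hQ⟩ : ∃ Q : ℤ, M ^ 2 - 145158 * s ^ 2 + N = 2 * Q :=
      ⟨(M ^ 2 - 145158 * s ^ 2 + N) / 2, by omega⟩
    have hsum : P + Q = M ^ 2 - 145158 * s ^ 2 := by linarith
    have hprod : P * Q = 767711241 * s ^ 4 := by
      have : 4 * (P * Q) = 4 * (767711241 * s ^ 4) := by
        linear_combination (-(2 * Q)) * hP - (M ^ 2 - 145158 * s ^ 2 - N) * hQ - hN'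
      exact mul_left_cancel₀ (by norm_num) this
    have h2s : (2 : ℤ) ∣ s := by
      by_contra h2s
      have hPodd : ¬ (2 : ℤ) ∣ P := by
        intro h
        have : (2 : ℤ) ∣ 767711241 * s ^ 4 := by rw [← hprod]; exact Dvd.dvd.mul_right h Q
        rcases prime2.dvd_or_dvd this with h | h
        · revert h; norm_num
        · exact h2s (prime2.dvd_of_dvd_pow h)
      have hQodd : ¬ (2 : ℤ) ∣ Q := by
        intro h
        have : (2 : ℤ) ∣ 767711241 * s ^ 4 := by rw [← hprod]; exact Dvd.dvd.mul_left h P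
        rcases prime2.dvd_or_dvd this with h | h
        · revert h; norm_num
        · exact h2s (prime2.dvd_of_dvd_pow h)
      omega
    obtain ⟨c, c', hcc, hcsum⟩ := core2 P Q M s hs0 hcs h3 hsum hprod
    obtain ⟨s2, hs2⟩ := h2s
    have hc8 := sq_mod8 c
    have hc8' := sq_mod8 c'
    have hM8 : M ^ 2 - 145158 * s ^ 2 = 8 * (x - 72579 * s2 ^ 2) + 1 := by
      rw [hx, hs2]; ring
    have hplus : M ^ 2 - 145158 * s ^ 2 = c ^ 2 + 89 * c' ^ 2 := by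
      rcases hcsum with h | h
      · exact h
      · exfalso; omega
    -- reduce the fraction c / s
    have hs2pos : (2937 * s ^ 2 : ℤ) ≠ 0 := by positivity
    have hc0 : c ≠ 0 := by
      rintro rfl
      apply hs2pos; rw [← hcc]; ring
    obtain ⟨u, r, hur1, hu, hr⟩ := Int.exists_gcd_one (m := c) (n := s)
      (Int.gcd_pos_of_ne_zero_left s hc0)
    have hur : IsCoprime u r := Int.isCoprime_iff_gcd_eq_one.2 hur1
    set d : ℤ := ((Int.gcd c s : ℕ) : ℤ) with hd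
    have hd0 : d ≠ 0 := by
      rw [hd]
      exact_mod_cast (Int.gcd_pos_of_ne_zero_left s hc0).ne'
    have hr0 : r ≠ 0 := by rintro rfl; apply hs0; rw [hr]; ring
    have hu0 : u ≠ 0 := by rintro rfl; apply hc0; rw [hu]; ring
    have huc : u * c' = 2937 * d * r ^ 2 := by
      have : d * (u * c') = d * (2937 * d * r ^ 2) := by
        rw [hu, hr] at hcc
        linear_combination hcc
      exact mul_left_cancel₀ hd0 this
    have hud : u ∣ 2937 * d := by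
      have h1 : u ∣ (2937 * d) * r ^ 2 := ⟨c', by rw [huc]⟩
      exact (IsCoprime.pow_right hur).dvd_of_dvd_mul_right h1
    obtain ⟨m, hm⟩ := hud
    have hMu : (M * u) ^ 2 = d ^ 2 * (u ^ 4 + 145158 * u ^ 2 * r ^ 2 + 767711241 * r ^ 4) := by
      have h1 : (u * c') ^ 2 = (2937 * d * r ^ 2) ^ 2 := by rw [huc]
      rw [hu, hr] at hplus
      linear_combination u ^ 2 * hplus + 89 * h1
    have hdMu : d ∣ M * u := by
      rw [← Int.pow_dvd_pow_iff (two_ne_zero)]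
      exact ⟨_, hMu⟩
    obtain ⟨K, hK⟩ := hdMu
    have hK2 : K ^ 2 = (u ^ 2 + 72579 * r ^ 2) ^ 2 - 4500000000 * r ^ 4 := by
      rw [hK] at hMu
      have : d ^ 2 * K ^ 2 = d ^ 2 * ((u ^ 2 + 72579 * r ^ 2) ^ 2 - 4500000000 * r ^ 4) := by
        linear_combination hMu
      exact mul_left_cancel₀ (pow_ne_zero 2 hd0) this
    have hKm : K * m = 2937 * M := by
      have : u * (K * m) = u * (2937 * M) := by
        linear_combination (-K) * hm - 2937 * hK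
      exact mul_left_cancel₀ hu0 this
    have hK2' : ¬ (2 : ℤ) ∣ K := by
      intro h
      have : (2 : ℤ) ∣ 2937 * M := by rw [← hKm]; exact Dvd.dvd.mul_right h m
      rcases prime2.dvd_or_dvd this with h | h
      · revert h; norm_num
      · exact h2 h
    have hK5' : ¬ (5 : ℤ) ∣ K := by
      intro h
      have : (5 : ℤ) ∣ 2937 * M := by rw [← hKm]; exact Dvd.dvd.mul_right h m
      rcases prime5.dvd_or_dvd this with h | h
      · revert h; norm_num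
      · exact h5 h
    obtain ⟨p, q, hpq, hpqs, hpcop⟩ := second u r K hr0 hur hK2 hK2' hK5'
    have hpq0 : (15000 * r ^ 2 : ℤ) ≠ 0 := by positivity
    have hp0 : p ≠ 0 := by
      rintro rfl
      apply hpq0; rw [← hpq]; ring
    obtain ⟨M', e', hMe1, hM', he'⟩ := Int.exists_gcd_one (m := p) (n := r)
      (Int.gcd_pos_of_ne_zero_left r hp0)
    have hMe : IsCoprime M' e' := Int.isCoprime_iff_gcd_eq_one.2 hMe1
    set h : ℤ := ((Int.gcd p r : ℕ) : ℤ) with hh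
    have hh0 : h ≠ 0 := by
      rw [hh]
      exact_mod_cast (Int.gcd_pos_of_ne_zero_left r hp0).ne'
    have he'0 : e' ≠ 0 := by rintro rfl; apply hr0; rw [he']; ring
    have hMq : M' * q = 15000 * h * e' ^ 2 := by
      have : h * (M' * q) = h * (15000 * h * e' ^ 2) := by
        rw [hM', he'] at hpq
        linear_combination hpq
      exact mul_left_cancel₀ hh0 this
    have hMu2 : (M' * u) ^ 2 =
        h ^ 2 * (M' ^ 4 - 72579 * M' ^ 2 * e' ^ 2 + 1125000000 * e' ^ 4) := by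
      have h1 : (M' * q) ^ 2 = (15000 * h * e' ^ 2) ^ 2 := by rw [hMq]
      rw [hM', he'] at hpqs
      linear_combination (-M' ^ 2) * hpqs + 5 * h1
    have hhMu : h ∣ M' * u := by
      rw [← Int.pow_dvd_pow_iff (two_ne_zero)]
      exact ⟨_, hMu2⟩
    obtain ⟨N', hN1⟩ := hhMu
    have hN2 : N' ^ 2 = M' ^ 4 - 72579 * M' ^ 2 * e' ^ 2 + 1125000000 * e' ^ 4 := by
      rw [hN1] at hMu2
      have : h ^ 2 * N' ^ 2 =
          h ^ 2 * (M' ^ 4 - 72579 * M' ^ 2 * e' ^ 2 + 1125000000 * e' ^ 4) := by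
        linear_combination hMu2
      exact mul_left_cancel₀ (pow_ne_zero 2 hh0) this
    have hM'5 : ¬ (5 : ℤ) ∣ M' := by
      intro h5
      have h1 : (5 : ℤ) ∣ p := by rw [hM']; exact Dvd.dvd.mul_right h5 h
      exact prime5.not_isUnit (hpcop.isUnit_of_dvd' h1 (Dvd.intro q rfl))
    have hM'2 : ¬ (2 : ℤ) ∣ M' := by
      intro h2
      have h1 : (2 : ℤ) ∣ p := by rw [hM']; exact Dvd.dvd.mul_right h2 h
      have h2q : ¬ (2 : ℤ) ∣ q := fun h' =>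
        prime2.not_isUnit (hpcop.isUnit_of_dvd' h1 (Dvd.dvd.mul_left h' 5))
      have hcop4 : IsCoprime (4 : ℤ) q := by
        have : (4 : ℤ) = 2 ^ 2 := by norm_num
        rw [this]
        exact IsCoprime.pow_left ((prime2.coprime_iff_not_dvd).2 h2q)
      have h4 : (4 : ℤ) ∣ M' * q := by rw [hMq]; exact ⟨3750 * h * e' ^ 2, by ring⟩
      exact not4 M' e' N' hMe hN2 (hcop4.dvd_of_dvd_mul_right h4)
    have hlt : e'.natAbs ≤ n := by
      have h1 : e = 2 * (d * h) * e' := by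
        rw [hs, hr, he']; ring
      have h2' : e.natAbs = 2 * (d * h).natAbs * e'.natAbs := by
        rw [h1, Int.natAbs_mul, Int.natAbs_mul]; rfl
      have h3' : 1 ≤ (d * h).natAbs := Int.natAbs_pos.2 (mul_ne_zero hd0 hh0)
      have h4' : 1 ≤ e'.natAbs := Int.natAbs_pos.2 he'0
      have h5' : 2 * e'.natAbs ≤ e.natAbs := by
        rw [h2']
        calc 2 * e'.natAbs = 2 * 1 * e'.natAbs := by ring
          _ ≤ 2 * (d * h).natAbs * e'.natAbs :=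
            Nat.mul_le_mul_right _ (Nat.mul_le_mul_left 2 h3')
      omega
    exact ih M' e' N' hlt hM'2 hM'5 hMe he'0 hN2

end Pool.Agent.Helper103.Shift
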