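import Mathlib
import Pool.Agent.Helper103.Shift3

set_option autoImplicit false

namespace Pool.Agent.Helper103.Shift

lemma dd2 (D T x y : ℤ) (hxy : x ≠ y) (hx : x ^ 5 - 13 * D ^ 2 * x ^ 3 + 36 * D ^ 4 * x = T)
    (hy : y ^ 5 - 13 * D ^ 2 * y ^ 3 + 36 * D ^ 4 * y = T) :
    x ^ 4 + x ^ 3 * y + x ^ 2 * y ^ 2 + x * y ^ 3 + y ^ 4 - 13 * D ^ 2 * (x ^ 2 + x * y + y ^ 2)
      + 36 * D ^ 4 = 0 := by
  apply mul_left_cancel₀ (sub_ne_zero.2 hxy)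
  linear_combination hx - hy

lemma dd3 (D x y z : ℤ) (hyz : y ≠ z)
    (h1 : x ^ 4 + x ^ 3 * y + x ^ 2 * y ^ 2 + x * y ^ 3 + y ^ 4
      - 13 * D ^ 2 * (x ^ 2 + x * y + y ^ 2) + 36 * D ^ 4 = 0)
    (h2 : x ^ 4 + x ^ 3 * z + x ^ 2 * z ^ 2 + x * z ^ 3 + z ^ 4
      - 13 * D ^ 2 * (x ^ 2 + x * z + z ^ 2) + 36 * D ^ 4 = 0) :
    x ^ 3 + y ^ 3 + z ^ 3 + x ^ 2 * y + x ^ 2 * z + y ^ 2 * x + y ^ 2 * z + z ^ 2 * x + z ^ 2 * y
      + x * y * z - 13 * D ^ 2 * (x + y + z) = 0 := by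
  apply mul_left_cancel₀ (sub_ne_zero.2 hyz)
  linear_combination h1 - h2

lemma dd4 (D x y z w : ℤ) (hzw : z ≠ w)
    (h1 : x ^ 3 + y ^ 3 + z ^ 3 + x ^ 2 * y + x ^ 2 * z + y ^ 2 * x + y ^ 2 * z + z ^ 2 * x
      + z ^ 2 * y + x * y * z - 13 * D ^ 2 * (x + y + z) = 0)
    (h2 : x ^ 3 + y ^ 3 + w ^ 3 + x ^ 2 * y + x ^ 2 * w + y ^ 2 * x + y ^ 2 * w + w ^ 2 * x
      + w ^ 2 * y + x * y * w - 13 * D ^ 2 * (x + y + w) = 0) :
    x ^ 2 + y ^ 2 + z ^ 2 + w ^ 2 + x * y + x * z + x * w + y * z + y * w + z * w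
      - 13 * D ^ 2 = 0 := by
  apply mul_left_cancel₀ (sub_ne_zero.2 hzw)
  linear_combination h1 - h2

lemma dd5 (D x y z w v : ℤ) (hwv : w ≠ v)
    (h1 : x ^ 2 + y ^ 2 + z ^ 2 + w ^ 2 + x * y + x * z + x * w + y * z + y * w + z * w
      - 13 * D ^ 2 = 0)
    (h2 : x ^ 2 + y ^ 2 + z ^ 2 + v ^ 2 + x * y + x * z + x * v + y * z + y * v + z * v
      - 13 * D ^ 2 = 0) :
    x + y + z + w + v = 0 := by
  apply mul_left_cancel₀ (sub_ne_zero.2 hwv)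
  linear_combination h1 - h2

/-- the elementary symmetric functions of five distinct roots -/
lemma sym (D T x y z w v : ℤ) (hxy : x ≠ y) (hxz : x ≠ z) (hxw : x ≠ w) (hxv : x ≠ v)
    (hyz : y ≠ z) (hyw : y ≠ w) (hyv : y ≠ v) (hzw : z ≠ w) (hzv : z ≠ v) (hwv : w ≠ v)
    (hx : x ^ 5 - 13 * D ^ 2 * x ^ 3 + 36 * D ^ 4 * x = T)
    (hy : y ^ 5 - 13 * D ^ 2 * y ^ 3 + 36 * D ^ 4 * y = T)
    (hz : z ^ 5 - 13 * D ^ 2 * z ^ 3 + 36 * D ^ 4 * z = T)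
    (hw : w ^ 5 - 13 * D ^ 2 * w ^ 3 + 36 * D ^ 4 * w = T)
    (hv : v ^ 5 - 13 * D ^ 2 * v ^ 3 + 36 * D ^ 4 * v = T) :
    x + y + z + w + v = 0 ∧
    x ^ 2 + y ^ 2 + z ^ 2 + w ^ 2 + v ^ 2 = 26 * D ^ 2 ∧
    y * z + y * w + y * v + z * w + z * v + w * v = x ^ 2 - 13 * D ^ 2 ∧
    y * z * w + y * z * v + y * w * v + z * w * v = -(x ^ 3 - 13 * D ^ 2 * x) ∧
    y * z * w * v = x ^ 4 - 13 * D ^ 2 * x ^ 2 + 36 * D ^ 4 := by
  have a1 := dd2 D T x y hxy hx hy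
  have a2 := dd2 D T x z hxz hx hz
  have a3 := dd2 D T x w hxw hx hw
  have a4 := dd2 D T x v hxv hx hv
  have b1 := dd3 D x y z hyz a1 a2
  have b2 := dd3 D x y w hyw a1 a3
  have b3 := dd3 D x y v hyv a1 a4
  have c1 := dd4 D x y z w hzw b1 b2
  have c2 := dd4 D x y z v hzv b1 b3
  have d1 := dd5 D x y z w v hwv c1 c2
  obtain rfl : v = -(x + y + z + w) := by linarith
  refine ⟨by ring, by linear_combination 2 * c1, by linear_combination -c1, ?_, ?_⟩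
  · linear_combination b1 - (y + z) * c1
  · have e3 : x * y * z + x * y * w + x * z * w + y * z * w
        - (x * y + x * z + x * w + y * z + y * w + z * w) * (x + y + z + w) = 0 := by
      linear_combination b1 + (w - (x + y + z + w)) * c1
    linear_combination
      (-(x * y + x * z + x * w + y * z + y * w + z * w - (x + y + z + w) * (x + y + z + w)
        - (z * w - (z + w) * (x + y + z + w)))) * c1 + (x + y) * e3 - a1 - x * e3 - x ^ 2 * c1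

end Pool.Agent.Helper103.Shift
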