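import Mathlib
import Pool.Agent.Helper103.Shift4

set_option autoImplicit false

namespace Pool.Agent.Helper103.Shift

lemma quartic_disc (a b c d : ℤ) :
    ((a - b) * (a - c) * (a - d) * (b - c) * (b - d) * (c - d)) ^ 2 =
      256 * (a*b*c*d)^3 - 192 * (a+b+c+d) * (a*b*c + a*b*d + a*c*d + b*c*d) * (a*b*c*d)^2
      - 128 * (a*b+a*c+a*d+b*c+b*d+c*d)^2 * (a*b*c*d)^2
      + 144 * (a*b+a*c+a*d+b*c+b*d+c*d) * (a*b*c + a*b*d + a*c*d + b*c*d)^2 * (a*b*c*d)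
      - 27 * (a*b*c + a*b*d + a*c*d + b*c*d)^4
      + 144 * (a+b+c+d)^2 * (a*b+a*c+a*d+b*c+b*d+c*d) * (a*b*c*d)^2
      - 6 * (a+b+c+d)^2 * (a*b*c + a*b*d + a*c*d + b*c*d)^2 * (a*b*c*d)
      - 80 * (a+b+c+d) * (a*b+a*c+a*d+b*c+b*d+c*d)^2 * (a*b*c + a*b*d + a*c*d + b*c*d) * (a*b*c*d)
      + 18 * (a+b+c+d) * (a*b+a*c+a*d+b*c+b*d+c*d) * (a*b*c + a*b*d + a*c*d + b*c*d)^3
      + 16 * (a*b+a*c+a*d+b*c+b*d+c*d)^4 * (a*b*c*d)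
      - 4 * (a*b+a*c+a*d+b*c+b*d+c*d)^3 * (a*b*c + a*b*d + a*c*d + b*c*d)^2
      - 27 * (a+b+c+d)^4 * (a*b*c*d)^2
      + 18 * (a+b+c+d)^3 * (a*b+a*c+a*d+b*c+b*d+c*d) * (a*b*c + a*b*d + a*c*d + b*c*d) * (a*b*c*d)
      - 4 * (a+b+c+d)^3 * (a*b*c + a*b*d + a*c*d + b*c*d)^3
      - 4 * (a+b+c+d)^2 * (a*b+a*c+a*d+b*c+b*d+c*d)^3 * (a*b*c*d)
      + (a+b+c+d)^2 * (a*b+a*c+a*d+b*c+b*d+c*d)^2 * (a*b*c + a*b*d + a*c*d + b*c*d)^2 := by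
  ring

lemma disc_sq (D T x y z w v : ℤ)
    (hx : x ^ 5 - 13 * D ^ 2 * x ^ 3 + 36 * D ^ 4 * x = T)
    (h1 : x + y + z + w + v = 0)
    (h2 : y * z + y * w + y * v + z * w + z * v + w * v = x ^ 2 - 13 * D ^ 2)
    (h3 : y * z * w + y * z * v + y * w * v + z * w * v = -(x ^ 3 - 13 * D ^ 2 * x))
    (h4 : y * z * w * v = x ^ 4 - 13 * D ^ 2 * x ^ 2 + 36 * D ^ 4) :
    ((5 * x ^ 4 - 39 * D ^ 2 * x ^ 2 + 36 * D ^ 4) *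
      ((y - z) * (y - w) * (y - v) * (z - w) * (z - v) * (w - v))) ^ 2 =
      3125 * T ^ 4 - 2612844 * T ^ 2 * D ^ 10 + 466560000 * D ^ 20 := by
  have h0 : y + z + w + v = -x := by linarith
  rw [mul_pow, quartic_disc y z w v, h0, h2, h3, h4, ← hx]
  ring

end Pool.Agent.Helper103.Shift
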