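import Mathlib
import Pool.Agent.Helper103.Shift5

set_option autoImplicit false

namespace Pool.Agent.Helper103.Shift

lemma fifth_mod2 (D T x : ℤ) (hD : D % 2 = 0)
    (hx : x ^ 5 - 13 * D ^ 2 * x ^ 3 + 36 * D ^ 4 * x = T) : x % 2 = T % 2 := by
  obtain ⟨E, rfl⟩ : (2 : ℤ) ∣ D := Int.dvd_of_emod_eq_zero hD
  have h : T = x ^ 5 + 2 * (-26 * E ^ 2 * x ^ 3 + 288 * E ^ 4 * x) := by rw [← hx]; ring
  have h5 : x ^ 5 % 2 = x % 2 := by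
    have : x % 2 = 0 ∨ x % 2 = 1 := by omega
    rcases this with h | h <;> simp [pow_succ, Int.mul_emod, h]
  omega

lemma fifth_mod5 (D T x : ℤ) (hD : D % 5 = 0)
    (hx : x ^ 5 - 13 * D ^ 2 * x ^ 3 + 36 * D ^ 4 * x = T) : x % 5 = T % 5 := by
  obtain ⟨E, rfl⟩ : (5 : ℤ) ∣ D := Int.dvd_of_emod_eq_zero hD
  have h : T = x ^ 5 + 5 * (-65 * E ^ 2 * x ^ 3 + 4500 * E ^ 4 * x) := by rw [← hx]; ring
  have h5 : x ^ 5 % 5 = x % 5 := by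
    have : x % 5 = 0 ∨ x % 5 = 1 ∨ x % 5 = 2 ∨ x % 5 = 3 ∨ x % 5 = 4 := by omega
    rcases this with h | h | h | h | h <;> simp [pow_succ, Int.mul_emod, h]
  omega

lemma sixteen (D T x : ℤ) (hD : ¬ D % 2 = 0) (hx0 : x % 2 = 0)
    (hx : x ^ 5 - 13 * D ^ 2 * x ^ 3 + 36 * D ^ 4 * x = T) : (16 : ℤ) ∣ T := by
  obtain ⟨y, rfl⟩ : (2 : ℤ) ∣ x := Int.dvd_of_emod_eq_zero hx0
  have h1 : (2 : ℤ) ∣ y * (y ^ 2 - D ^ 2) := by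
    by_cases hy : y % 2 = 0
    · exact Dvd.dvd.mul_right (Int.dvd_of_emod_eq_zero hy) _
    · apply Dvd.dvd.mul_left
      obtain ⟨a, ha⟩ : ∃ a, y = 2 * a + 1 := ⟨y / 2, by omega⟩
      obtain ⟨b, hb⟩ : ∃ b, D = 2 * b + 1 := ⟨D / 2, by omega⟩
      exact ⟨2 * a ^ 2 + 2 * a - 2 * b ^ 2 - 2 * b, by rw [ha, hb]; ring⟩
  obtain ⟨k, hk⟩ := h1
  refine ⟨k * (4 * y ^ 2 - 9 * D ^ 2), ?_⟩
  rw [← hx]
  linear_combination 8 * (4 * y ^ 2 - 9 * D ^ 2) * hk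

lemma twentyfive (D T x : ℤ) (h : x ^ 2 % 5 = 4 * D ^ 2 % 5)
    (hx : x ^ 5 - 13 * D ^ 2 * x ^ 3 + 36 * D ^ 4 * x = T) : (25 : ℤ) ∣ T := by
  obtain ⟨k, hk⟩ : ∃ k, x ^ 2 - 4 * D ^ 2 = 5 * k := ⟨(x ^ 2 - 4 * D ^ 2) / 5, by omega⟩
  refine ⟨x * k * (k - D ^ 2), ?_⟩
  rw [← hx]
  have : x ^ 5 - 13 * D ^ 2 * x ^ 3 + 36 * D ^ 4 * x =
      x * (x ^ 2 - 4 * D ^ 2) * ((x ^ 2 - 4 * D ^ 2) - 5 * D ^ 2) := by ring
  rw [this, hk]; ring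

lemma dich5 (D x : ℤ) (hD : ¬ D % 5 = 0) (h : ¬ x ^ 2 % 5 = 4 * D ^ 2 % 5) :
    (x % 5 = 0 ∧ x ^ 2 % 5 = 0) ∨ (¬ x % 5 = 0 ∧ x ^ 2 % 5 = D ^ 2 % 5) := by
  have hx : x % 5 = 0 ∨ x % 5 = 1 ∨ x % 5 = 2 ∨ x % 5 = 3 ∨ x % 5 = 4 := by omega
  have hD' : D % 5 = 1 ∨ D % 5 = 2 ∨ D % 5 = 3 ∨ D % 5 = 4 := by omega
  have hD2 : D ^ 2 % 5 = 1 ∨ D ^ 2 % 5 = 4 := by
    rcases hD' with h | h | h | h <;> simp [pow_two, Int.mul_emod, h]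
  have hx2 : (x % 5 = 0 ∧ x ^ 2 % 5 = 0) ∨ (¬ x % 5 = 0 ∧ x ^ 2 % 5 = 1) ∨
      (¬ x % 5 = 0 ∧ x ^ 2 % 5 = 4) := by
    rcases hx with h | h | h | h | h <;> simp [pow_two, Int.mul_emod, h]
  omega

lemma sqD5 (D : ℤ) (hD : ¬ D % 5 = 0) : D ^ 2 % 5 = 1 ∨ D ^ 2 % 5 = 4 := by
  have hD' : D % 5 = 1 ∨ D % 5 = 2 ∨ D % 5 = 3 ∨ D % 5 = 4 := by omega
  rcases hD' with h | h | h | h <;> simp [pow_two, Int.mul_emod, h]

lemma exists5 (D x y z w v : ℤ) (hD : ¬ D % 5 = 0) (h1 : x + y + z + w + v = 0)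
    (h2 : x ^ 2 + y ^ 2 + z ^ 2 + w ^ 2 + v ^ 2 = 26 * D ^ 2) :
    x ^ 2 % 5 = 4 * D ^ 2 % 5 ∨ y ^ 2 % 5 = 4 * D ^ 2 % 5 ∨ z ^ 2 % 5 = 4 * D ^ 2 % 5 ∨
    w ^ 2 % 5 = 4 * D ^ 2 % 5 ∨ v ^ 2 % 5 = 4 * D ^ 2 % 5 := by
  by_contra hne
  push Not at hne
  obtain ⟨n1, n2, n3, n4, n5⟩ := hne
  have hx := dich5 D x hD n1
  have hy := dich5 D y hD n2
  have hz := dich5 D z hD n3
  have hw := dich5 D w hD n4
  have hv := dich5 D v hD n5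
  have hD2 := sqD5 D hD
  generalize x ^ 2 = X at *
  generalize y ^ 2 = Y at *
  generalize z ^ 2 = Z at *
  generalize w ^ 2 = W at *
  generalize v ^ 2 = V at *
  generalize D ^ 2 = E at *
  rcases hD2 with hD2 | hD2 <;> rcases hx with hx | hx <;> rcases hy with hy | hy <;>
    rcases hz with hz | hz <;> rcases hw with hw | hw <;> rcases hv with hv | hv <;> omega

lemma lift5 (x T : ℤ) (h : x % 5 = T % 5) : ∃ a, x = T + 5 * a := ⟨(x - T) / 5, by omega⟩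

lemma even_all (D x y z w v T : ℤ) (h : D % 2 = 0) (h0 : x + y + z + w + v = 0)
    (e1 : x % 2 = T % 2) (e2 : y % 2 = T % 2) (e3 : z % 2 = T % 2) (e4 : w % 2 = T % 2)
    (e5 : v % 2 = T % 2) :
    (2 : ℤ) ∣ D ∧ (2 : ℤ) ∣ x ∧ (2 : ℤ) ∣ y ∧ (2 : ℤ) ∣ z ∧ (2 : ℤ) ∣ w ∧ (2 : ℤ) ∣ v := by
  omega

lemma exists_even (x y z w v : ℤ) (h0 : x + y + z + w + v = 0) :
    x % 2 = 0 ∨ y % 2 = 0 ∨ z % 2 = 0 ∨ w % 2 = 0 ∨ v % 2 = 0 := by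
  omega

lemma dvd400 (T : ℤ) (h1 : (16 : ℤ) ∣ T) (h2 : (25 : ℤ) ∣ T) : (400 : ℤ) ∣ T := by
  omega

theorem integer_case (D T x y z w v : ℤ) (hD0 : D ≠ 0) (hT0 : T ≠ 0)
    (hxy : x ≠ y) (hxz : x ≠ z) (hxw : x ≠ w) (hxv : x ≠ v)
    (hyz : y ≠ z) (hyw : y ≠ w) (hyv : y ≠ v) (hzw : z ≠ w) (hzv : z ≠ v) (hwv : w ≠ v)
    (hx : x ^ 5 - 13 * D ^ 2 * x ^ 3 + 36 * D ^ 4 * x = T)
    (hy : y ^ 5 - 13 * D ^ 2 * y ^ 3 + 36 * D ^ 4 * y = T)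
    (hz : z ^ 5 - 13 * D ^ 2 * z ^ 3 + 36 * D ^ 4 * z = T)
    (hw : w ^ 5 - 13 * D ^ 2 * w ^ 3 + 36 * D ^ 4 * w = T)
    (hv : v ^ 5 - 13 * D ^ 2 * v ^ 3 + 36 * D ^ 4 * v = T)
    (hmin : ∀ q : ℤ, (q = 2 ∨ q = 5) → q ∣ D → q ∣ x → q ∣ y → q ∣ z → q ∣ w → q ∣ v → False) :
    False := by
  obtain ⟨s1, s2, s3, s4, s5⟩ :=
    sym D T x y z w v hxy hxz hxw hxv hyz hyw hyv hzw hzv hwv hx hy hz hw hv
  -- D is odd
  have hD2 : ¬ D % 2 = 0 := by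
    intro h
    have e1 := fifth_mod2 D T x h hx
    have e2 := fifth_mod2 D T y h hy
    have e3 := fifth_mod2 D T z h hz
    have e4 := fifth_mod2 D T w h hw
    have e5 := fifth_mod2 D T v h hv
    obtain ⟨f0, f1, f2, f3, f4, f5⟩ := even_all D x y z w v T h s1 e1 e2 e3 e4 e5
    exact hmin 2 (Or.inl rfl) f0 f1 f2 f3 f4 f5
  -- D is prime to 5
  have hD5 : ¬ D % 5 = 0 := by
    intro h
    have e1 := fifth_mod5 D T x h hx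
    have e2 := fifth_mod5 D T y h hy
    have e3 := fifth_mod5 D T z h hz
    have e4 := fifth_mod5 D T w h hw
    have e5 := fifth_mod5 D T v h hv
    obtain ⟨E, hE⟩ : (5 : ℤ) ∣ D := Int.dvd_of_emod_eq_zero h
    obtain ⟨a, ha⟩ := lift5 x T e1
    obtain ⟨b, hb⟩ := lift5 y T e2
    obtain ⟨c, hc⟩ := lift5 z T e3
    obtain ⟨d, hd⟩ := lift5 w T e4
    obtain ⟨e, he⟩ := lift5 v T e5
    have hsum : a + b + c + d + e = -T := by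
      rw [ha, hb, hc, hd, he] at s1; linarith
    have hTsq : (5 : ℤ) ∣ T ^ 2 := by
      refine ⟨a ^ 2 + b ^ 2 + c ^ 2 + d ^ 2 + e ^ 2 - 26 * E ^ 2, ?_⟩
      rw [ha, hb, hc, hd, he, hE] at s2
      have : (5 : ℤ) * T ^ 2 =
          5 * (5 * (a ^ 2 + b ^ 2 + c ^ 2 + d ^ 2 + e ^ 2 - 26 * E ^ 2)) := by
        linear_combination (-1) * s2 + 10 * T * hsum
      exact mul_left_cancel₀ (by norm_num) this
    have hT5 := prime5.dvd_of_dvd_pow hTsq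
    have aux : ∀ a : ℤ, (5 : ℤ) ∣ T + 5 * a := fun a => dvd_add hT5 (Dvd.intro a rfl)
    exact hmin 5 (Or.inr rfl) ⟨E, hE⟩ (by rw [ha]; exact aux a) (by rw [hb]; exact aux b)
      (by rw [hc]; exact aux c) (by rw [hd]; exact aux d) (by rw [he]; exact aux e)
  have h16 : (16 : ℤ) ∣ T := by
    rcases exists_even x y z w v s1 with h | h | h | h | h
    · exact sixteen D T x hD2 h hx
    · exact sixteen D T y hD2 h hy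
    · exact sixteen D T z hD2 h hz
    · exact sixteen D T w hD2 h hw
    · exact sixteen D T v hD2 h hv
  have h25 : (25 : ℤ) ∣ T := by
    rcases exists5 D x y z w v hD5 s1 s2 with h | h | h | h | h
    · exact twentyfive D T x h hx
    · exact twentyfive D T y h hy
    · exact twentyfive D T z h hz
    · exact twentyfive D T w h hw
    · exact twentyfive D T v h hv
  obtain ⟨U, hU⟩ : (400 : ℤ) ∣ T := dvd400 T h16 h25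
  have hU0 : U ≠ 0 := by rintro rfl; apply hT0; rw [hU]; ring
  have hdisc := disc_sq D T x y z w v hx s1 s3 s4 s5
  set Z := (5 * x ^ 4 - 39 * D ^ 2 * x ^ 2 + 36 * D ^ 4) *
      ((y - z) * (y - w) * (y - v) * (z - w) * (z - v) * (w - v)) with hZ
  have h800 : (3 * Z) ^ 2 = 800 ^ 2 *
      ((9 * D ^ 5) ^ 4 - 72579 * (9 * D ^ 5) ^ 2 * U ^ 2 + 1125000000 * U ^ 4) := by
    rw [mul_pow, hdisc, hU]; ring
  obtain ⟨W, hW⟩ : (800 : ℤ) ∣ 3 * Z := by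
    rw [← Int.pow_dvd_pow_iff (two_ne_zero)]
    exact ⟨_, h800⟩
  have hW2 : W ^ 2 = (9 * D ^ 5) ^ 4 - 72579 * (9 * D ^ 5) ^ 2 * U ^ 2 + 1125000000 * U ^ 4 := by
    rw [hW] at h800
    have : (800 : ℤ) ^ 2 * W ^ 2 = 800 ^ 2 *
        ((9 * D ^ 5) ^ 4 - 72579 * (9 * D ^ 5) ^ 2 * U ^ 2 + 1125000000 * U ^ 4) := by
      linear_combination h800
    exact mul_left_cancel₀ (by norm_num) this
  obtain ⟨M, e, hMe1, hM, he⟩ := Int.exists_gcd_one (m := 9 * D ^ 5) (n := U)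
    (Int.gcd_pos_of_ne_zero_right _ hU0)
  have hMe : IsCoprime M e := Int.isCoprime_iff_gcd_eq_one.2 hMe1
  have hg0' : Int.gcd (9 * D ^ 5) U ≠ 0 := (Int.gcd_pos_of_ne_zero_right _ hU0).ne'
  generalize Int.gcd (9 * D ^ 5) U = g' at hM he hg0'
  obtain ⟨g, hg⟩ : ∃ g : ℤ, g = (g' : ℤ) := ⟨_, rfl⟩
  rw [← hg] at hM he
  have hg0 : g ≠ 0 := by rw [hg]; exact_mod_cast hg0'
  have he0 : e ≠ 0 := by rintro rfl; apply hU0; rw [he]; ring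
  have hM2 : ¬ (2 : ℤ) ∣ M := by
    intro h
    have h1 : (2 : ℤ) ∣ 9 * D ^ 5 := by rw [hM]; exact Dvd.dvd.mul_right h g
    rcases prime2.dvd_or_dvd h1 with h | h
    · revert h; norm_num
    · exact hD2 (Int.emod_eq_zero_of_dvd (prime2.dvd_of_dvd_pow h))
  have hM5 : ¬ (5 : ℤ) ∣ M := by
    intro h
    have h1 : (5 : ℤ) ∣ 9 * D ^ 5 := by rw [hM]; exact Dvd.dvd.mul_right h g
    rcases prime5.dvd_or_dvd h1 with h | h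
    · revert h; norm_num
    · exact hD5 (Int.emod_eq_zero_of_dvd (prime5.dvd_of_dvd_pow h))
  have hW3 : W ^ 2 = (g ^ 2) ^ 2 * (M ^ 4 - 72579 * M ^ 2 * e ^ 2 + 1125000000 * e ^ 4) := by
    rw [hW2, hM, he]; ring
  obtain ⟨N, hN⟩ : g ^ 2 ∣ W := by
    rw [← Int.pow_dvd_pow_iff (two_ne_zero)]
    exact ⟨_, hW3⟩
  have hN2 : N ^ 2 = M ^ 4 - 72579 * M ^ 2 * e ^ 2 + 1125000000 * e ^ 4 := by
    rw [hN] at hW3
    have : (g ^ 2) ^ 2 * N ^ 2 =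
        (g ^ 2) ^ 2 * (M ^ 4 - 72579 * M ^ 2 * e ^ 2 + 1125000000 * e ^ 4) := by
      linear_combination hW3
    exact mul_left_cancel₀ (pow_ne_zero 2 (pow_ne_zero 2 hg0)) this
  exact descent e.natAbs M e N le_rfl hM2 hM5 hMe he0 hN2

end Pool.Agent.Helper103.Shift
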