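import Mathlib
import Pool.Agent.Helper103.Shift6

set_option autoImplicit false

namespace Pool.Agent.Helper103.Shift

theorem rational_case (x : Fin 5 → ℚ) (hinj : Function.Injective x) (τ : ℚ) (hτ : τ ≠ 0)
    (hx : ∀ i, x i ^ 5 - 13 * x i ^ 3 + 36 * x i = τ) : False := by
  classical
  let S : ℕ → Prop := fun D => 0 < D ∧ ∃ X : Fin 5 → ℤ, ∀ i, (X i : ℚ) = D * x i
  have hex : ∃ D, S D := by
    refine ⟨∏ i, (x i).den, Finset.prod_pos (fun i _ => (x i).den_pos), ?_⟩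
    have h1 : ∀ i, ∃ Y : ℤ, (Y : ℚ) = ((∏ i, (x i).den : ℕ) : ℚ) * x i := by
      intro i
      obtain ⟨k, hk⟩ := Finset.dvd_prod_of_mem (fun i => (x i).den) (Finset.mem_univ i)
      refine ⟨k * (x i).num, ?_⟩
      rw [hk]
      have h2 : ((x i).den : ℚ) * x i = (x i).num := Rat.den_mul_eq_num (x i)
      push_cast
      rw [← h2]; ring
    choose Y hY using h1
    exact ⟨Y, hY⟩
  have hD := Nat.find_spec hex
  have hmin := fun m (hm : m < Nat.find hex) => Nat.find_min hex hm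
  set D := Nat.find hex with hDdef
  obtain ⟨hD0, X, hX⟩ := hD
  have hDq : (D : ℚ) ≠ 0 := by exact_mod_cast hD0.ne'
  have hF : ∀ i, ((X i ^ 5 - 13 * (D : ℤ) ^ 2 * X i ^ 3 + 36 * (D : ℤ) ^ 4 * X i : ℤ) : ℚ)
      = (D : ℚ) ^ 5 * τ := by
    intro i
    push_cast
    rw [hX i, ← hx i]; ring
  have hFi : ∀ i, X i ^ 5 - 13 * (D : ℤ) ^ 2 * X i ^ 3 + 36 * (D : ℤ) ^ 4 * X i
      = X 0 ^ 5 - 13 * (D : ℤ) ^ 2 * X 0 ^ 3 + 36 * (D : ℤ) ^ 4 * X 0 := by
    intro i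
    have h := (hF i).trans (hF 0).symm
    exact_mod_cast h
  have hT0 : X 0 ^ 5 - 13 * (D : ℤ) ^ 2 * X 0 ^ 3 + 36 * (D : ℤ) ^ 4 * X 0 ≠ 0 := by
    intro h
    have h1 := hF 0
    rw [h] at h1
    have : (D : ℚ) ^ 5 * τ ≠ 0 := mul_ne_zero (pow_ne_zero 5 hDq) hτ
    apply this
    rw [← h1]; simp
  have hne : ∀ i j, i ≠ j → X i ≠ X j := by
    intro i j hij h
    apply hij
    apply hinj
    have h1 : (X i : ℚ) = (X j : ℚ) := by rw [h]
    rw [hX i, hX j] at h1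
    exact mul_left_cancel₀ hDq h1
  refine integer_case (D : ℤ) _ (X 0) (X 1) (X 2) (X 3) (X 4) (by exact_mod_cast hD0.ne') hT0
    (hne _ _ (by decide)) (hne _ _ (by decide)) (hne _ _ (by decide)) (hne _ _ (by decide))
    (hne _ _ (by decide)) (hne _ _ (by decide)) (hne _ _ (by decide)) (hne _ _ (by decide))
    (hne _ _ (by decide)) (hne _ _ (by decide)) rfl (hFi 1) (hFi 2) (hFi 3) (hFi 4) ?_
  intro q hq hqD h0 h1 h2 h3 h4
  obtain ⟨n, hn1, hn⟩ : ∃ n : ℕ, 1 < n ∧ q = (n : ℤ) := by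
    rcases hq with rfl | rfl
    · exact ⟨2, by norm_num, rfl⟩
    · exact ⟨5, by norm_num, rfl⟩
  rw [hn] at hqD h0 h1 h2 h3 h4
  have hall : ∀ i, (n : ℤ) ∣ X i := by
    intro i
    fin_cases i
    · exact h0
    · exact h1
    · exact h2
    · exact h3
    · exact h4
  obtain ⟨D', hD'⟩ : n ∣ D := by exact_mod_cast hqD
  have hD'0 : 0 < D' := by
    rcases Nat.eq_zero_or_pos D' with h | h
    · rw [h, mul_zero] at hD'; omega
    · exact h
  have hlt : D' < D := by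
    rw [hD']
    nlinarith
  apply hmin D' hlt
  refine ⟨hD'0, ?_⟩
  choose Y hY using hall
  refine ⟨Y, fun i => ?_⟩
  have hn0 : (n : ℚ) ≠ 0 := by
    have : n ≠ 0 := by omega
    exact_mod_cast this
  apply mul_left_cancel₀ hn0
  have h5 := hX i
  rw [hY i, hD'] at h5
  push_cast at h5
  linear_combination h5

end Pool.Agent.Helper103.Shift
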