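import Mathlib

set_option autoImplicit false

open Polynomial

namespace Pool.Agent.Helper103.Strip

lemma exists_root_near (q : ℂ[X]) (n : ℕ) (hn : q.natDegree ≤ n) (z0 : ℂ) (r : ℝ)
    (hr0 : 0 < r)
    (hr : (n : ℝ) * ‖q.eval z0‖ < r * ‖q.derivative.eval z0‖) :
    ∃ z ∈ q.roots, ‖z0 - z‖ < r := by
  have hq0 : q ≠ 0 := by
    rintro rfl
    simp at hr
  by_cases h0 : q.eval z0 = 0
  · exact ⟨z0, (mem_roots hq0).2 h0, by simpa using hr0⟩
  · by_contra hcon
    push Not at hcon
    have h1 := (IsAlgClosed.splits q).eval_derivative_eq_eval_mul_sum h0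
    have h2 : ‖(q.roots.map fun z ↦ 1 / (z0 - z)).sum‖ ≤ n * (1 / r) := by
      refine (norm_multiset_sum_le _).trans ?_
      have h3 : ∀ x ∈ (Multiset.map (fun x => ‖x‖) (q.roots.map fun z ↦ 1 / (z0 - z))), x ≤ 1 / r := by
        intro x hx
        simp only [Multiset.map_map, Multiset.mem_map, Function.comp] at hx
        obtain ⟨z, hz, rfl⟩ := hx
        rw [norm_div, norm_one]
        exact one_div_le_one_div_of_le hr0 (hcon z hz)
      refine (Multiset.sum_le_card_nsmul _ _ h3).trans ?_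
      simp only [Multiset.card_map, nsmul_eq_mul]
      apply mul_le_mul_of_nonneg_right _ (by positivity)
      exact_mod_cast (card_roots' q).trans hn
    have h4 : ‖q.derivative.eval z0‖ ≤ ‖q.eval z0‖ * (n * (1 / r)) := by
      rw [h1, norm_mul]
      exact mul_le_mul_of_nonneg_left h2 (norm_nonneg _)
    have h5 : r * ‖q.derivative.eval z0‖ ≤ n * ‖q.eval z0‖ := by
      calc r * ‖q.derivative.eval z0‖ ≤ r * (‖q.eval z0‖ * (n * (1 / r))) :=
            mul_le_mul_of_nonneg_left h4 hr0.le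
        _ = n * ‖q.eval z0‖ := by field_simp
    linarith

/-- the polynomial of degree eight -/
noncomputable def P : ℂ[X] :=
  C 26250000000 * X ^ 8 - C 60000000 * X ^ 7 + C 35000 * X ^ 6 + C 321585600 * X ^ 5
    + C 7942109 * X ^ 4 - C 675976000 * X ^ 3 + C 140000 * X ^ 2 + C 414390400 * X

lemma P_eval (z : ℂ) : P.eval z =
    26250000000 * z ^ 8 - 60000000 * z ^ 7 + 35000 * z ^ 6 + 321585600 * z ^ 5
    + 7942109 * z ^ 4 - 675976000 * z ^ 3 + 140000 * z ^ 2 + 414390400 * z := by
  simp [P]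

/-- centre divided difference -/
noncomputable def DD (p : ℂ[X]) (l : ℝ) : ℂ[X] :=
  (p.comp (X + C (l : ℂ)) - p.comp (X - C (l : ℂ))) * C (1 / (2 * (l : ℂ)))

lemma DD_eval (p : ℂ[X]) (l : ℝ) (z : ℂ) :
    (DD p l).eval z = (p.eval (z + l) - p.eval (z - l)) * (1 / (2 * (l : ℂ))) := by
  simp [DD, eval_comp]

lemma DD_one (z : ℂ) : (DD P 1).eval z =
    210000000000 * (z * (z ^ 2 + 429 / 2500) * (z ^ 2 + 1) * ((z - 1 / 1000) ^ 2 + 14571 / 2500)) := by
  rw [DD_eval, P_eval, P_eval]
  push_cast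
  ring

lemma sq_neg (z : ℂ) (s : ℝ) (hs : 0 < s) (h : z ^ 2 + s = 0) : z.re = 0 := by
  have h1 := congrArg Complex.re h
  have h2 := congrArg Complex.im h
  simp [pow_two] at h1 h2
  by_contra hne
  have him : z.im = 0 := by
    have : z.re * z.im = 0 := by linarith
    rcases mul_eq_zero.1 this with h | h
    · exact absurd h hne
    · exact h
  rw [him] at h1
  nlinarith [sq_nonneg z.re]

lemma root_one (z : ℂ) (hz : (DD P 1).eval z = 0) : z.re = 0 ∨ z.re = 1 / 1000 := by
  rw [DD_one] at hz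
  have h1 : z * (z ^ 2 + 429 / 2500) * (z ^ 2 + 1) * ((z - 1 / 1000) ^ 2 + 14571 / 2500) = 0 := by
    rcases mul_eq_zero.1 hz with h | h
    · norm_num at h
    · exact h
  rcases mul_eq_zero.1 h1 with h2 | h2
  · rcases mul_eq_zero.1 h2 with h3 | h3
    · rcases mul_eq_zero.1 h3 with h4 | h4
      · left; rw [h4]; simp
      · left; apply sq_neg z (429 / 2500) (by norm_num); push_cast; exact h4
    · left; apply sq_neg z 1 (by norm_num); push_cast; exact h3
  · right
    have h3 := sq_neg (z - 1 / 1000) (14571 / 2500) (by norm_num) (by push_cast; exact h2)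
    have h4 : (z - 1 / 1000).re = z.re - 1 / 1000 := by
      rw [Complex.sub_re]
      norm_num
    rw [h4] at h3
    linarith

end Pool.Agent.Helper103.Strip
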