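import Mathlib
import Pool.Agent.Helper103.Strip2

set_option autoImplicit false

open Polynomial

namespace Pool.Agent.Helper103.Strip

lemma dP_eval (z : ℂ) : (derivative P).eval z =
    210000000000 * z ^ 7 - 420000000 * z ^ 6 + 210000 * z ^ 5 + 1607928000 * z ^ 4
    + 31768436 * z ^ 3 - 2027928000 * z ^ 2 + 280000 * z + 414390400 := by
  simp only [P, derivative_add, derivative_sub, derivative_mul, derivative_C, derivative_X_pow,
    zero_mul, zero_add, eval_add, eval_sub, eval_mul, eval_C, eval_pow, eval_X, Nat.cast_ofNat,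
    derivative_X, mul_one]
  norm_num
  ring

/-- all zeros of the derivative lie in a small disc -/
lemma dP_root (z : ℂ) (hz : (derivative P).eval z = 0) : ‖z‖ < 49 / 100 := by
  by_contra hcon
  push Not at hcon
  rw [dP_eval] at hz
  have h1 : (210000000000 : ℂ) * z ^ 7 = 420000000 * z ^ 6 - 210000 * z ^ 5 - 1607928000 * z ^ 4
    - 31768436 * z ^ 3 + 2027928000 * z ^ 2 - 280000 * z - 414390400 := by
    linear_combination hz
  have h2 : ‖(210000000000 : ℂ) * z ^ 7‖ = 210000000000 * ‖z‖ ^ 7 := by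
    rw [norm_mul, norm_pow]; norm_num
  have h3 : ‖420000000 * z ^ 6 - 210000 * z ^ 5 - 1607928000 * z ^ 4
    - 31768436 * z ^ 3 + 2027928000 * z ^ 2 - 280000 * z - 414390400‖ ≤
    420000000 * ‖z‖ ^ 6 + 210000 * ‖z‖ ^ 5 + 1607928000 * ‖z‖ ^ 4
    + 31768436 * ‖z‖ ^ 3 + 2027928000 * ‖z‖ ^ 2 + 280000 * ‖z‖ + 414390400 := by
    have e : ∀ (a : ℝ) (n : ℕ), 0 ≤ a → ‖((a : ℝ) : ℂ) * z ^ n‖ = a * ‖z‖ ^ n := by
      intro a n ha
      rw [norm_mul, norm_pow, Complex.norm_real, Real.norm_of_nonneg ha]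
    have e6 := e 420000000 6 (by norm_num)
    have e5 := e 210000 5 (by norm_num)
    have e4 := e 1607928000 4 (by norm_num)
    have e3 := e 31768436 3 (by norm_num)
    have e2 := e 2027928000 2 (by norm_num)
    have e1 := e 280000 1 (by norm_num)
    push_cast at e6 e5 e4 e3 e2 e1
    rw [pow_one, pow_one] at e1
    have e0 : ‖(414390400 : ℂ)‖ = 414390400 := by norm_num
    refine (norm_sub_le _ _).trans ?_
    refine (add_le_add (norm_sub_le _ _) le_rfl).trans ?_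
    refine (add_le_add (add_le_add (norm_add_le _ _) le_rfl) le_rfl).trans ?_
    refine (add_le_add (add_le_add (add_le_add (norm_sub_le _ _) le_rfl) le_rfl) le_rfl).trans ?_
    refine (add_le_add (add_le_add (add_le_add (add_le_add (norm_sub_le _ _) le_rfl) le_rfl)
      le_rfl) le_rfl).trans ?_
    refine (add_le_add (add_le_add (add_le_add (add_le_add (add_le_add (norm_sub_le _ _) le_rfl)
      le_rfl) le_rfl) le_rfl) le_rfl).trans ?_
    rw [e6, e5, e4, e3, e2, e1, e0]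
  rw [← h1, h2] at h3
  obtain ⟨t, ht⟩ : ∃ t : ℝ, ‖z‖ = 49 / 100 * t := ⟨‖z‖ / (49 / 100), by ring⟩
  rw [ht] at hcon h3
  have ht1 : 1 ≤ t := by linarith
  have p6 : t ^ 6 ≤ t ^ 7 := pow_le_pow_right₀ ht1 (by norm_num)
  have p5 : t ^ 5 ≤ t ^ 7 := pow_le_pow_right₀ ht1 (by norm_num)
  have p4 : t ^ 4 ≤ t ^ 7 := pow_le_pow_right₀ ht1 (by norm_num)
  have p3 : t ^ 3 ≤ t ^ 7 := pow_le_pow_right₀ ht1 (by norm_num)
  have p2 : t ^ 2 ≤ t ^ 7 := pow_le_pow_right₀ ht1 (by norm_num)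
  have p1 : t ^ 1 ≤ t ^ 7 := pow_le_pow_right₀ ht1 (by norm_num)
  have p0 : (1 : ℝ) ≤ t ^ 7 := one_le_pow₀ ht1
  rw [pow_one] at p1
  simp only [mul_pow] at h3
  norm_num at h3
  linarith

lemma bdd (q : ℂ[X]) : BddAbove {x : ℝ | ∃ z ∈ q.roots, ∃ w ∈ q.roots, x = z.re - w.re} := by
  classical
  have : {x : ℝ | ∃ z ∈ q.roots, ∃ w ∈ q.roots, x = z.re - w.re} ⊆
      (((q.roots.toFinset ×ˢ q.roots.toFinset).image (fun t => t.1.re - t.2.re) : Finset ℝ) :
        Set ℝ) := by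
    rintro x ⟨z, hz, w, hw, rfl⟩
    simp only [Finset.coe_image, Set.mem_image]
    exact ⟨(z, w), by simp [hz, hw], rfl⟩
  exact (Finset.finite_toSet _).bddAbove.mono this

lemma width_dP : sSup {x : ℝ | ∃ z ∈ (derivative P).roots, ∃ w ∈ (derivative P).roots,
    x = z.re - w.re} ≤ 98 / 100 := by
  apply Real.sSup_le
  · rintro x ⟨z, hz, w, hw, rfl⟩
    have h1 := dP_root z (isRoot_of_mem_roots hz)
    have h2 := dP_root w (isRoot_of_mem_roots hw)
    have h3 := (abs_le.1 (Complex.abs_re_le_norm z)).2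
    have h4 := (abs_le.1 (Complex.abs_re_le_norm w)).1
    linarith
  · norm_num

lemma width_one : sSup {x : ℝ | ∃ z ∈ (DD P 1).roots, ∃ w ∈ (DD P 1).roots,
    x = z.re - w.re} ≤ 1 / 1000 := by
  apply Real.sSup_le
  · rintro x ⟨z, hz, w, hw, rfl⟩
    rcases root_one z (isRoot_of_mem_roots hz) with h1 | h1 <;>
      rcases root_one w (isRoot_of_mem_roots hw) with h2 | h2 <;> rw [h1, h2] <;> norm_num
  · norm_num

lemma width_two : 1 / 1000 < sSup {x : ℝ | ∃ z ∈ (DD P (21 / 20)).roots,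
    ∃ w ∈ (DD P (21 / 20)).roots, x = z.re - w.re} := by
  obtain ⟨z, hz, hz1⟩ := za_near
  obtain ⟨w, hw, hw1⟩ := zb_near
  have h1 := (abs_le.1 (Complex.abs_re_le_norm ((⟨45927 / 50000000, 25349193 / 10000000⟩ : ℂ) - z))).2
  have h2 := (abs_le.1 (Complex.abs_re_le_norm
    ((⟨-(4443 / 50000000), 173981 / 400000⟩ : ℂ) - w))).1
  rw [Complex.sub_re] at h1 h2
  have h3 : z.re - w.re ≤ sSup {x : ℝ | ∃ z ∈ (DD P (21 / 20)).roots,
      ∃ w ∈ (DD P (21 / 20)).roots, x = z.re - w.re} :=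
    le_csSup (bdd _) ⟨z, hz, w, hw, rfl⟩
  have h4 : (1 : ℝ) / 1000 < z.re - w.re := by
    simp only at h1 h2
    linarith
  linarith

end Pool.Agent.Helper103.Strip
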